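import Pool.Agent.K4H58.DR.Blk

/-! # The pair sum against the Fejer kernel at height `T`: upper bound, on RH -/

set_option autoImplicit false

namespace Pool.Agent.K4H58.DR

open Filter Topology MeasureTheory Set
open SG (ord NZ)
open SP (RHs)

noncomputable section

/-- blocks -/
def Bk (T : ℝ) (k : ℕ) : Finset ℕ := Finset.Ioc (NZ (T / 2 ^ (k + 1) + 1)) (NZ (2 * (T / 2 ^ (k + 1)) - 1))

lemma mem_Bk {T : ℝ} {k n : ℕ} (hn : 1 ≤ n) :
    n ∈ Bk T k ↔ T / 2 ^ (k + 1) + 1 < ord n ∧ ord n ≤ 2 * (T / 2 ^ (k + 1)) - 1 := mem_J hn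

lemma Bk_pos {T : ℝ} {k n : ℕ} (h : n ∈ Bk T k) : 1 ≤ n := by
  unfold Bk at h
  rw [Finset.mem_Ioc] at h
  omega

lemma Bk_sep {T : ℝ} (hT : 0 ≤ T) {i j n l : ℕ} (hij : i < j) (hn : n ∈ Bk T i) (hl : l ∈ Bk T j) :
    2 ≤ ord n - ord l := by
  have h1 := ((mem_Bk (Bk_pos hn)).1 hn).1
  have h2 := ((mem_Bk (Bk_pos hl)).1 hl).2
  have h5 : 2 * (T / 2 ^ (j + 1)) ≤ T / 2 ^ (i + 1) := by
    have h6 : 2 * (T / 2 ^ (j + 1)) = T / 2 ^ j := by rw [pow_succ]; field_simp
    rw [h6]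
    apply div_le_div_of_nonneg_left hT (by positivity)
    exact pow_le_pow_right₀ (by norm_num) hij
  linarith

/-- the weight -/
def wt1 (T : ℝ) : ℝ := ∑ n ∈ Finset.Icc 1 (NZ T), ∑ l ∈ Finset.Icc 1 (NZ T), 1 / (1 + (ord n - ord l) ^ 2)

lemma Bk_sub {T : ℝ} (hT : 0 ≤ T) (k : ℕ) : Bk T k ⊆ Finset.Icc 1 (NZ T) := by
  intro n hn
  have h1 := Bk_pos hn
  have h2 := ((mem_Bk h1).1 hn).2
  rw [Finset.mem_Icc]
  refine ⟨h1, (SG.ord_le_iff h1 T).1 ?_⟩
  have h3 : 2 * (T / 2 ^ (k + 1)) ≤ T := by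
    have h6 : 2 * (T / 2 ^ (k + 1)) = T / 2 ^ k := by rw [pow_succ]; field_simp
    rw [h6]
    exact div_le_self hT (one_le_pow₀ (by norm_num))
  linarith

lemma Qf_blocks {T a : ℝ} (hT : 0 ≤ T) (ha : 0 < a) (J : ℕ) :
    Qf a ((Finset.range J).biUnion (Bk T)) ≤ ∑ k ∈ Finset.range J, Qd a (Bk T k) +
      5 / (4 * a ^ 2) * wt1 T := by
  classical
  obtain ⟨B, hB⟩ : ∃ B, B = (Finset.range J).biUnion (Bk T) := ⟨_, rfl⟩
  rw [← hB]
  have hBk : ∀ k ∈ Finset.range J, Bk T k ⊆ B := by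
    intro k hk
    rw [hB]
    exact Finset.subset_biUnion_of_mem _ hk
  have hBI : B ⊆ Finset.Icc 1 (NZ T) := by
    rw [hB, Finset.biUnion_subset]
    exact fun k _ => Bk_sub hT k
  have hpt : ∀ n ∈ B, ∀ l ∈ B, hh (a * (ord n - ord l)) ≤
      (∑ k ∈ Finset.range J, if n ∈ Bk T k then (if l ∈ Bk T k then
        hh (a * (ord n - ord l)) * Real.exp (-(ord n - ord l) ^ 2 / 4) else 0) else 0) +
      5 / (4 * a ^ 2) * (1 / (1 + (ord n - ord l) ^ 2)) := by
    intro n hn l hl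
    rw [hB, Finset.mem_biUnion] at hn hl
    obtain ⟨i, hi, hni⟩ := hn
    obtain ⟨j, hj, hlj⟩ := hl
    have hterm : ∀ k ∈ Finset.range J, 0 ≤ (if n ∈ Bk T k then (if l ∈ Bk T k then
        hh (a * (ord n - ord l)) * Real.exp (-(ord n - ord l) ^ 2 / 4) else 0) else 0) := by
      intro k _
      split_ifs
      · exact mul_nonneg (hh_nonneg _) (Real.exp_pos _).le
      · exact le_rfl
      · exact le_rfl
    rcases lt_trichotomy i j with hij | hij | hij
    · have h1 := Bk_sep hT hij hni hlj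
      have h2 := cross ha (h1.trans (le_abs_self _))
      have h3 := Finset.sum_nonneg hterm
      linarith
    · subst hij
      have h1 := Finset.single_le_sum hterm hi
      rw [if_pos hni, if_pos hlj] at h1
      have h2 := damp (d := ord n - ord l) ha
      have h3 : hh (a * (ord n - ord l)) = hh (a * (ord n - ord l)) *
          Real.exp (-(ord n - ord l) ^ 2 / 4) + hh (a * (ord n - ord l)) *
          (1 - Real.exp (-(ord n - ord l) ^ 2 / 4)) := by ring
      linarith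
    · have h1 := Bk_sep hT hij hlj hni
      have h2 := cross (d := ord n - ord l) ha (by
        rw [abs_sub_comm]
        exact h1.trans (le_abs_self _))
      have h3 := Finset.sum_nonneg hterm
      linarith
  calc Qf a B ≤ ∑ n ∈ B, ∑ l ∈ B, ((∑ k ∈ Finset.range J, if n ∈ Bk T k then (if l ∈ Bk T k then
        hh (a * (ord n - ord l)) * Real.exp (-(ord n - ord l) ^ 2 / 4) else 0) else 0) +
      5 / (4 * a ^ 2) * (1 / (1 + (ord n - ord l) ^ 2))) :=
        Finset.sum_le_sum fun n hn => Finset.sum_le_sum fun l hl => hpt n hn l hl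
    _ = (∑ n ∈ B, ∑ l ∈ B, ∑ k ∈ Finset.range J, if n ∈ Bk T k then (if l ∈ Bk T k then
        hh (a * (ord n - ord l)) * Real.exp (-(ord n - ord l) ^ 2 / 4) else 0) else 0) +
        5 / (4 * a ^ 2) * ∑ n ∈ B, ∑ l ∈ B, 1 / (1 + (ord n - ord l) ^ 2) := by
        simp_rw [Finset.sum_add_distrib, Finset.mul_sum]
    _ ≤ ∑ k ∈ Finset.range J, Qd a (Bk T k) + 5 / (4 * a ^ 2) * wt1 T := by
        refine add_le_add (le_of_eq ?_) ?_
        · have h1 : ∀ n ∈ B, (∑ l ∈ B, ∑ k ∈ Finset.range J, if n ∈ Bk T k then (if l ∈ Bk T k then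
              hh (a * (ord n - ord l)) * Real.exp (-(ord n - ord l) ^ 2 / 4) else 0) else 0) =
              ∑ k ∈ Finset.range J, if n ∈ Bk T k then (∑ l ∈ Bk T k,
                hh (a * (ord n - ord l)) * Real.exp (-(ord n - ord l) ^ 2 / 4)) else 0 := by
            intro n _
            rw [Finset.sum_comm]
            refine Finset.sum_congr rfl fun k hk => ?_
            by_cases hnk : n ∈ Bk T k
            · simp only [if_pos hnk]
              rw [← Finset.sum_filter]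
              refine Finset.sum_congr ?_ fun _ _ => rfl
              ext l
              rw [Finset.mem_filter]
              exact ⟨fun h => h.2, fun h => ⟨hBk k hk h, h⟩⟩
            · simp only [if_neg hnk]
              simp
          rw [Finset.sum_congr rfl h1, Finset.sum_comm]
          refine Finset.sum_congr rfl fun k hk => ?_
          unfold Qd
          rw [← Finset.sum_filter]
          refine Finset.sum_congr ?_ fun _ _ => rfl
          ext n
          rw [Finset.mem_filter]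
          exact ⟨fun h => h.2, fun h => ⟨hBk k hk h, h⟩⟩
        · refine mul_le_mul_of_nonneg_left ?_ (by positivity)
          unfold wt1
          calc ∑ n ∈ B, ∑ l ∈ B, 1 / (1 + (ord n - ord l) ^ 2) ≤
              ∑ n ∈ B, ∑ l ∈ Finset.Icc 1 (NZ T), 1 / (1 + (ord n - ord l) ^ 2) :=
                Finset.sum_le_sum fun n _ => Finset.sum_le_sum_of_subset_of_nonneg hBI
                  fun _ _ _ => by positivity
            _ ≤ _ := Finset.sum_le_sum_of_subset_of_nonneg hBI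
                  fun _ _ _ => Finset.sum_nonneg fun _ _ => by positivity

/-- edges -/
def Ed (T : ℝ) (k : ℕ) : Finset ℕ :=
  Finset.Ioc (NZ (2 * (T / 2 ^ (k + 1)) - 1)) (NZ (2 * (T / 2 ^ (k + 1)) + 1))

lemma rest_sub {T : ℝ} (J : ℕ) : Finset.Icc 1 (NZ T) \ ((Finset.range J).biUnion (Bk T)) ⊆
    Finset.Icc 1 (NZ (T / 2 ^ J + 1)) ∪ (Finset.range J).biUnion (Ed T) := by
  classical
  induction J with
  | zero =>
    intro n hn
    simp only [Finset.range_zero, Finset.biUnion_empty, Finset.sdiff_empty, Finset.union_empty,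
      pow_zero, div_one, Finset.mem_Icc] at hn ⊢
    exact ⟨hn.1, hn.2.trans (SG.NZ_mono (by linarith))⟩
  | succ J ih =>
    intro n hn
    rw [Finset.mem_sdiff] at hn
    obtain ⟨h1, h2⟩ := hn
    have hn1 : 1 ≤ n := (Finset.mem_Icc.1 h1).1
    have h3 : n ∉ (Finset.range J).biUnion (Bk T) := by
      intro h
      apply h2
      rw [Finset.mem_biUnion] at h ⊢
      obtain ⟨k, hk, hk2⟩ := h
      exact ⟨k, Finset.mem_range.2 (by have := Finset.mem_range.1 hk; omega), hk2⟩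
    have h4 := ih (Finset.mem_sdiff.2 ⟨h1, h3⟩)
    rw [Finset.mem_union] at h4 ⊢
    rcases h4 with h4 | h4
    · rw [Finset.mem_Icc] at h4
      have h5 := (SG.ord_le_iff hn1 _).2 h4.2
      by_cases h6 : ord n ≤ T / 2 ^ (J + 1) + 1
      · left
        rw [Finset.mem_Icc]
        exact ⟨hn1, (SG.ord_le_iff hn1 _).1 h6⟩
      · right
        push Not at h6
        rw [Finset.mem_biUnion]
        refine ⟨J, Finset.self_mem_range_succ J, ?_⟩
        have h7 : n ∉ Bk T J := by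
          intro h
          apply h2
          rw [Finset.mem_biUnion]
          exact ⟨J, Finset.self_mem_range_succ J, h⟩
        rw [mem_Bk hn1] at h7
        push Not at h7
        have h8 := h7 h6
        unfold Ed
        rw [mem_J hn1]
        refine ⟨h8, ?_⟩
        have h9 : 2 * (T / 2 ^ (J + 1)) = T / 2 ^ J := by rw [pow_succ]; field_simp
        rw [h9]
        exact h5
    · right
      rw [Finset.mem_biUnion] at h4 ⊢
      obtain ⟨k, hk, hk2⟩ := h4
      exact ⟨k, Finset.mem_range.2 (by have := Finset.mem_range.1 hk; omega), hk2⟩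

lemma Ed_card {C T : ℝ} (hT : 10 ≤ T) (hC : ∀ T : ℝ, 10 ≤ T → ∀ x : ℝ, x ≤ T →
    ((NZ (x + 1) : ℝ) - NZ x) ≤ C * Real.log T) (J : ℕ) :
    (((Finset.range J).biUnion (Ed T)).card : ℝ) ≤ J * (2 * (C * Real.log T)) := by
  classical
  have h1 : ∀ k ∈ Finset.range J, ((Ed T k).card : ℝ) ≤ 2 * (C * Real.log T) := by
    intro k _
    unfold Ed
    rw [Nat.card_Ioc]
    obtain ⟨x, hx⟩ : ∃ x, x = 2 * (T / 2 ^ (k + 1)) := ⟨_, rfl⟩
    rw [← hx]
    have hxT : x ≤ T := by
      have h6 : 2 * (T / 2 ^ (k + 1)) = T / 2 ^ k := by rw [pow_succ]; field_simp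
      rw [hx, h6]
      exact div_le_self (by linarith) (one_le_pow₀ (by norm_num))
    have g1 := hC T hT (x - 1) (by linarith)
    have g2 := hC T hT x hxT
    rw [sub_add_cancel] at g1
    have hm : NZ (x - 1) ≤ NZ (x + 1) := SG.NZ_mono (by linarith)
    rw [Nat.cast_sub hm]
    linarith
  calc (((Finset.range J).biUnion (Ed T)).card : ℝ) ≤ ∑ k ∈ Finset.range J, ((Ed T k).card : ℝ) := by
        exact_mod_cast Finset.card_biUnion_le
    _ ≤ ∑ _k ∈ Finset.range J, 2 * (C * Real.log T) := Finset.sum_le_sum h1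
    _ = _ := by rw [Finset.sum_const, Finset.card_range, nsmul_eq_mul]

/-- **the pair sum at height `T`, upper bound** -/
theorem upper (RH : RiemannHypothesis) (hRH : RHs) {lam ε : ℝ} (hl : 0 < lam) (hl1 : lam < 1)
    (hε : 0 < ε) : ∀ᶠ T : ℝ in atTop, Qf (lam * Real.log T / (2 * Real.pi)) (Finset.Icc 1 (NZ T)) ≤
      (1 / lam + lam / 3 + ε) * (T / (2 * Real.pi) * Real.log T) := by
  classical
  have hpi := Real.pi_pos
  -- the parameters
  obtain ⟨s, hs0, hs1, hs2⟩ : ∃ s : ℝ, 0 < s ∧ lam + s < 1 ∧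
      (1 + s) * (((lam + s) / lam) * (1 / (lam + s) + (lam + s) / 3 + s)) ≤ 1 / lam + lam / 3 + ε / 4 := by
    have hc : ContinuousAt (fun s : ℝ => (1 + s) * (((lam + s) / lam) *
        (1 / (lam + s) + (lam + s) / 3 + s))) 0 := by
      have : lam + 0 ≠ 0 := by linarith
      fun_prop (disch := assumption)
    have h0 : (1 + (0 : ℝ)) * (((lam + 0) / lam) * (1 / (lam + 0) + (lam + 0) / 3 + 0)) =
        1 / lam + lam / 3 := by
      field_simp
      ring
    have e1 : ∀ᶠ s : ℝ in 𝓝[>] 0, 0 < s := self_mem_nhdsWithin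
    have e2 : ∀ᶠ s : ℝ in 𝓝[>] 0, lam + s < 1 := by
      have : ∀ᶠ s : ℝ in 𝓝 0, s < 1 - lam := gt_mem_nhds (by linarith)
      exact nhdsWithin_le_nhds (this.mono fun s hs => by linarith)
    have e3 : ∀ᶠ s : ℝ in 𝓝[>] 0, (1 + s) * (((lam + s) / lam) *
        (1 / (lam + s) + (lam + s) / 3 + s)) < 1 / lam + lam / 3 + ε / 4 :=
      nhdsWithin_le_nhds (hc.eventually (gt_mem_nhds (by simp only; rw [h0]; linarith)))
    obtain ⟨s, ⟨h1, h2⟩, h3⟩ := ((e1.and e2).and e3).exists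
    exact ⟨s, h1, h2, h3.le⟩
  obtain ⟨μ, hμ⟩ : ∃ μ, μ = lam + s := ⟨_, rfl⟩
  rw [← hμ] at hs1 hs2
  have hμ0 : 0 < μ := by rw [hμ]; linarith
  obtain ⟨V0, hV0, hblk⟩ := block RH hμ0 hs1 hs0
  obtain ⟨C1, hC1, hwt⟩ := pairs_wt hRH lam hl
  obtain ⟨C2, hC2, hone⟩ := pairs_one
  obtain ⟨C3, hC3, hC3'⟩ := unit_count
  -- the number of blocks
  obtain ⟨J, hJ, hJ0⟩ : ∃ J : ℕ, (1 + 1 / s) * (8 * C1) * (1 / 2 : ℝ) ^ J ≤
      ε / 4 * (1 / (2 * Real.pi)) ∧ 1 ≤ J := by
    obtain ⟨J, hJ⟩ := exists_pow_lt_of_lt_one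
      (show (0 : ℝ) < ε / 4 * (1 / (2 * Real.pi)) / ((1 + 1 / s) * (8 * C1)) by positivity)
      (show (1 / 2 : ℝ) < 1 by norm_num)
    refine ⟨J + 1, ?_, by omega⟩
    rw [lt_div_iff₀ (by positivity)] at hJ
    have h1 : (1 / 2 : ℝ) ^ (J + 1) ≤ (1 / 2) ^ J := pow_le_pow_of_le_one (by norm_num) (by norm_num)
      (Nat.le_succ J)
    have h2 : 0 ≤ (1 + 1 / s) * (8 * C1) := by positivity
    have h3 := mul_le_mul_of_nonneg_left h1 h2
    linarith
  have h2J : (0 : ℝ) < 2 ^ J := by positivity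
  have hT' : Tendsto (fun T : ℝ => T / 2 ^ J) atTop atTop := tendsto_id.atTop_div_const h2J
  have ev1 : ∀ᶠ T : ℝ in atTop, ∑ n ∈ Finset.Icc 1 (NZ (T / 2 ^ J + 1)),
      ∑ l ∈ Finset.Icc 1 (NZ (T / 2 ^ J + 1)),
      1 / (1 + (lam * (us (T / 2 ^ J + 1) n - us (T / 2 ^ J + 1) l)) ^ 2) ≤
      C1 * ((T / 2 ^ J + 1) * Real.log (T / 2 ^ J + 1)) :=
    (tendsto_atTop_add_const_right _ 1 hT').eventually hwt
  have ev2 : ∀ᶠ T : ℝ in atTop, max V0 (2 ^ J) ≤ T / 2 ^ J := hT'.eventually_ge_atTop _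
  have ev3 : ∀ᶠ T : ℝ in atTop, μ * (J * Real.log 2) ≤ s * Real.log T :=
    (Real.tendsto_log_atTop.const_mul_atTop hs0).eventually_ge_atTop _
  have ev4 : ∀ᶠ T : ℝ in atTop, (1 + s) * (5 * Real.pi ^ 2 / lam ^ 2 * C2) ≤
      ε / 4 * (1 / (2 * Real.pi)) * Real.log T :=
    (Real.tendsto_log_atTop.const_mul_atTop (by positivity)).eventually_ge_atTop _
  have ev5 : ∀ᶠ T : ℝ in atTop, ((1 + 1 / s) * (8 * (J * C3) ^ 2)) * Real.log T ≤
      ε / 4 * (1 / (2 * Real.pi)) * T := by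
    have h1 := (Real.isLittleO_log_id_atTop.bound (c := ε / 4 * (1 / (2 * Real.pi)) /
      ((1 + 1 / s) * (8 * (J * C3) ^ 2) + 1)) (by positivity))
    filter_upwards [h1, eventually_ge_atTop 1] with T hT hT1
    have hlT : 0 ≤ Real.log T := Real.log_nonneg hT1
    simp only [id] at hT
    rw [Real.norm_of_nonneg hlT, Real.norm_of_nonneg (by linarith : (0 : ℝ) ≤ T), div_mul_eq_mul_div,
      le_div_iff₀ (by positivity)] at hT
    nlinarith
  filter_upwards [ev1, ev2, ev3, ev4, ev5, hone, eventually_ge_atTop 10] with T g1 g2 g3 g4 g5 g6 hT10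
  have hT0 : 0 < T := by linarith
  have hL : 0 < Real.log T := Real.log_pos (by linarith)
  obtain ⟨X, hX⟩ : ∃ X, X = T * Real.log T := ⟨_, rfl⟩
  have hX0 : 0 < X := by rw [hX]; positivity
  obtain ⟨a, ha⟩ : ∃ a, a = lam * Real.log T / (2 * Real.pi) := ⟨_, rfl⟩
  have ha0 : 0 < a := by rw [ha]; positivity
  have hVJ : V0 ≤ T / 2 ^ J := (le_max_left _ _).trans g2
  have hTJ : (2 : ℝ) ^ J ≤ T / 2 ^ J := (le_max_right _ _).trans g2
  have hTJ1 : 1 ≤ T / 2 ^ J := (one_le_pow₀ (by norm_num)).trans hTJ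
  have hVk : ∀ k < J, T / 2 ^ J ≤ T / 2 ^ (k + 1) := by
    intro k hk
    apply div_le_div_of_nonneg_left hT0.le (by positivity)
    exact pow_le_pow_right₀ (by norm_num) hk
  have hlogJ : lam * Real.log T ≤ μ * Real.log (T / 2 ^ J) := by
    rw [Real.log_div hT0.ne' h2J.ne', Real.log_pow]
    rw [hμ] at g3 ⊢
    nlinarith
  -- blocks
  have hblocks : ∑ k ∈ Finset.range J, Qd a (Bk T k) ≤
      ((μ / lam) * (1 / μ + μ / 3 + s)) * (X / (2 * Real.pi)) := by
    have h1 : ∀ k ∈ Finset.range J, Qd a (Bk T k) ≤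
        ((μ / lam) * (1 / μ + μ / 3 + s)) * (Real.log T / (2 * Real.pi)) * (T / 2 ^ (k + 1)) := by
      intro k hk
      have hk' := Finset.mem_range.1 hk
      have h2 := hVk k hk'
      have hV0k : 0 < T / 2 ^ (k + 1) := by positivity
      have hlk : Real.log (T / 2 ^ J) ≤ Real.log (T / 2 ^ (k + 1)) :=
        Real.log_le_log (by positivity) h2
      have hlk0 : 0 ≤ Real.log (T / 2 ^ (k + 1)) := Real.log_nonneg (hTJ1.trans h2)
      have hlkT : Real.log (T / 2 ^ (k + 1)) ≤ Real.log T := by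
        apply Real.log_le_log hV0k
        exact div_le_self hT0.le (one_le_pow₀ (by norm_num))
      have h3 := hblk (T / 2 ^ (k + 1)) (hVJ.trans h2) (lam * Real.log T) (by positivity)
        (hlogJ.trans (by gcongr))
      rw [← ha] at h3
      refine h3.trans ?_
      calc μ * Real.log (T / 2 ^ (k + 1)) / (lam * Real.log T) * (1 / μ + μ / 3 + s) *
            (T / 2 ^ (k + 1) * Real.log (T / 2 ^ (k + 1)) / (2 * Real.pi)) ≤
          μ * Real.log T / (lam * Real.log T) * (1 / μ + μ / 3 + s) *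
            (T / 2 ^ (k + 1) * Real.log T / (2 * Real.pi)) := by gcongr
        _ = _ := by field_simp
    calc ∑ k ∈ Finset.range J, Qd a (Bk T k) ≤ ∑ k ∈ Finset.range J,
          ((μ / lam) * (1 / μ + μ / 3 + s)) * (Real.log T / (2 * Real.pi)) * (T / 2 ^ (k + 1)) :=
          Finset.sum_le_sum h1
      _ = ((μ / lam) * (1 / μ + μ / 3 + s)) * (Real.log T / (2 * Real.pi)) *
          ∑ k ∈ Finset.range J, (T / 2 ^ (k + 1)) := by rw [← Finset.mul_sum]
      _ ≤ ((μ / lam) * (1 / μ + μ / 3 + s)) * (Real.log T / (2 * Real.pi)) * T := by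
          have h4 : ∀ J : ℕ, ∑ k ∈ Finset.range J, (T / 2 ^ (k + 1)) = T - T / 2 ^ J := by
            intro J
            induction J with
            | zero => simp
            | succ J ih =>
              rw [Finset.sum_range_succ, ih, pow_succ]
              field_simp
              ring
          rw [h4]
          have h5 : T - T / 2 ^ J ≤ T := by
            have : 0 < T / 2 ^ J := by positivity
            linarith
          gcongr
      _ = _ := by rw [hX]; ring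
  have hB := Qf_blocks hT0.le ha0 J
  have hw : 5 / (4 * a ^ 2) * wt1 T ≤ 5 * Real.pi ^ 2 / lam ^ 2 * C2 * T := by
    have h1 : wt1 T ≤ C2 * (T * Real.log T ^ 2) := g6
    calc 5 / (4 * a ^ 2) * wt1 T ≤ 5 / (4 * a ^ 2) * (C2 * (T * Real.log T ^ 2)) := by gcongr
      _ = _ := by rw [ha]; field_simp; ring
  -- the rest
  obtain ⟨B, hBd⟩ : ∃ B, B = (Finset.range J).biUnion (Bk T) := ⟨_, rfl⟩
  rw [← hBd] at hB
  obtain ⟨E0, hE0⟩ : ∃ E0, E0 = Finset.Icc 1 (NZ (T / 2 ^ J + 1)) := ⟨_, rfl⟩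
  obtain ⟨E1, hE1⟩ : ∃ E1, E1 = (Finset.range J).biUnion (Ed T) := ⟨_, rfl⟩
  have hrest : Finset.Icc 1 (NZ T) \ B ⊆ E0 ∪ (E1 \ E0) := by
    rw [Finset.union_sdiff_self_eq_union, hE0, hE1, hBd]
    exact rest_sub J
  have hQ0 : Qf a E0 ≤ 4 * C1 * (1 / 2 : ℝ) ^ J * X := by
    have h1 : Qf a E0 ≤ 2 * ∑ n ∈ E0, ∑ l ∈ E0,
        1 / (1 + (lam * (us (T / 2 ^ J + 1) n - us (T / 2 ^ J + 1) l)) ^ 2) := by
      unfold Qf
      rw [Finset.mul_sum]
      refine Finset.sum_le_sum fun n _ => ?_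
      rw [Finset.mul_sum]
      refine Finset.sum_le_sum fun l _ => ?_
      refine (hh_wt _).trans ?_
      rw [mul_one_div]
      apply div_le_div_of_nonneg_left (by norm_num) (by positivity)
      have h2 : (lam * (us (T / 2 ^ J + 1) n - us (T / 2 ^ J + 1) l)) ^ 2 =
          (lam * (Real.log (T / 2 ^ J + 1) / (2 * Real.pi))) ^ 2 * (ord n - ord l) ^ 2 := by
        unfold us
        ring
      have h3 : (a * (ord n - ord l)) ^ 2 = (lam * (Real.log T / (2 * Real.pi))) ^ 2 *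
          (ord n - ord l) ^ 2 := by
        rw [ha]
        ring
      rw [h2, h3]
      have h4 : Real.log (T / 2 ^ J + 1) ≤ Real.log T := by
        apply Real.log_le_log (by linarith)
        have h5 : (2 : ℝ) ≤ 2 ^ J := by
          calc (2 : ℝ) = 2 ^ 1 := by norm_num
            _ ≤ 2 ^ J := pow_le_pow_right₀ (by norm_num) hJ0
        have h6 : T / 2 ^ J ≤ T / 2 := div_le_div_of_nonneg_left hT0.le (by norm_num) h5
        linarith
      have h5 : 0 ≤ Real.log (T / 2 ^ J + 1) := Real.log_nonneg (by linarith)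
      gcongr
    have h2 : (T / 2 ^ J + 1) * Real.log (T / 2 ^ J + 1) ≤ 2 * (1 / 2 : ℝ) ^ J * X := by
      have h4 : Real.log (T / 2 ^ J + 1) ≤ Real.log T := by
        apply Real.log_le_log (by linarith)
        have h5 : (2 : ℝ) ≤ 2 ^ J := by
          calc (2 : ℝ) = 2 ^ 1 := by norm_num
            _ ≤ 2 ^ J := pow_le_pow_right₀ (by norm_num) hJ0
        have h6 : T / 2 ^ J ≤ T / 2 := div_le_div_of_nonneg_left hT0.le (by norm_num) h5
        linarith
      have h5 : 0 ≤ Real.log (T / 2 ^ J + 1) := Real.log_nonneg (by linarith)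
      calc (T / 2 ^ J + 1) * Real.log (T / 2 ^ J + 1) ≤ (2 * (T / 2 ^ J)) * Real.log T := by
            gcongr
            linarith
        _ = _ := by
            rw [hX, one_div, inv_pow]
            ring
    calc Qf a E0 ≤ 2 * (C1 * ((T / 2 ^ J + 1) * Real.log (T / 2 ^ J + 1))) := by
          refine h1.trans ?_
          rw [hE0]
          exact mul_le_mul_of_nonneg_left g1 (by norm_num)
      _ ≤ 2 * (C1 * (2 * (1 / 2 : ℝ) ^ J * X)) := by gcongr
      _ = _ := by ring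
  have hQ1 : Qf a (E1 \ E0) ≤ (J * (2 * (C3 * Real.log T))) ^ 2 := by
    refine (Qf_card a _).trans ?_
    have h1 : (((E1 \ E0).card : ℕ) : ℝ) ≤ (E1.card : ℝ) := by
      exact_mod_cast Finset.card_le_card Finset.sdiff_subset
    have h2 := Ed_card hT10 hC3' J
    rw [← hE1] at h2
    exact pow_le_pow_left₀ (Nat.cast_nonneg _) (h1.trans h2) 2
  have hQE : Qf a (Finset.Icc 1 (NZ T) \ B) ≤ 2 * (4 * C1 * (1 / 2 : ℝ) ^ J * X) +
      2 * (J * (2 * (C3 * Real.log T))) ^ 2 := by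
    have h1 := Qf_split a (A := E0) (B := E1 \ E0) Finset.disjoint_sdiff (θ := 1) one_pos
    have h2 := (Qf_mono a hrest).trans h1
    linarith
  have hBI : B ⊆ Finset.Icc 1 (NZ T) := by
    rw [hBd, Finset.biUnion_subset]
    exact fun k _ => Bk_sub hT0.le k
  have hall : Qf a (Finset.Icc 1 (NZ T)) ≤ (1 + s) * Qf a B + (1 + 1 / s) *
      Qf a (Finset.Icc 1 (NZ T) \ B) := by
    have h1 := Qf_split a (A := B) (B := Finset.Icc 1 (NZ T) \ B) Finset.disjoint_sdiff hs0
    rwa [Finset.union_sdiff_of_subset hBI] at h1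
  rw [← ha]
  have hXX : T / (2 * Real.pi) * Real.log T = X / (2 * Real.pi) := by rw [hX]; ring
  rw [hXX]
  have k1 : (1 + s) * Qf a B ≤ (1 / lam + lam / 3 + ε / 4) * (X / (2 * Real.pi)) +
      ε / 4 * (X / (2 * Real.pi)) := by
    calc (1 + s) * Qf a B ≤ (1 + s) * (((μ / lam) * (1 / μ + μ / 3 + s)) * (X / (2 * Real.pi)) +
          5 * Real.pi ^ 2 / lam ^ 2 * C2 * T) := by
          apply mul_le_mul_of_nonneg_left _ (by positivity)
          linarith
      _ = ((1 + s) * ((μ / lam) * (1 / μ + μ / 3 + s))) * (X / (2 * Real.pi)) +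
          ((1 + s) * (5 * Real.pi ^ 2 / lam ^ 2 * C2)) * T := by ring
      _ ≤ (1 / lam + lam / 3 + ε / 4) * (X / (2 * Real.pi)) +
          (ε / 4 * (1 / (2 * Real.pi)) * Real.log T) * T := by gcongr
      _ = _ := by rw [hX]; ring
  have k2 : (1 + 1 / s) * Qf a (Finset.Icc 1 (NZ T) \ B) ≤ ε / 4 * (X / (2 * Real.pi)) +
      ε / 4 * (X / (2 * Real.pi)) := by
    calc (1 + 1 / s) * Qf a (Finset.Icc 1 (NZ T) \ B) ≤ (1 + 1 / s) *
          (2 * (4 * C1 * (1 / 2 : ℝ) ^ J * X) + 2 * (J * (2 * (C3 * Real.log T))) ^ 2) := by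
          apply mul_le_mul_of_nonneg_left hQE (by positivity)
      _ = ((1 + 1 / s) * (8 * C1) * (1 / 2 : ℝ) ^ J) * X +
          (((1 + 1 / s) * (8 * (J * C3) ^ 2)) * Real.log T) * Real.log T := by ring
      _ ≤ (ε / 4 * (1 / (2 * Real.pi))) * X + (ε / 4 * (1 / (2 * Real.pi)) * T) * Real.log T := by
          gcongr
      _ = _ := by rw [hX]; ring
  linarith

end

end Pool.Agent.K4H58.DR
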