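import Pool.Agent.K4H58.KL.Avg

/-! # Pairs of zeros at a given distance, on RH -/

set_option autoImplicit false

namespace Pool.Agent.K4H58.DR

open Filter Topology MeasureTheory Set
open SG (ord NZ)
open SP (RHs)
open Pool.Agent.K4H58.KL (sc Win mem_Win Win_card Win_pow_integrable momW sc_sub integrable_sc int_sc
  ind_integrable Win_meas)

noncomputable section

/-- scaled ordinates -/
def us (T : ℝ) (n : ℕ) : ℝ := ord n * (Real.log T / (2 * Real.pi))

lemma sc_us (T t : ℝ) (n : ℕ) : sc T t n = us T n - t * (Real.log T / (2 * Real.pi)) := by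
  unfold sc us
  ring

/-- pairs of zeros with scaled difference near `y` -/
theorem pairs_y (hRH : RHs) : ∃ C : ℝ, 0 < C ∧ ∀ᶠ T : ℝ in atTop, ∀ y : ℝ,
    ∑ n ∈ Finset.Icc 1 (NZ T), ∑ l ∈ Finset.Icc 1 (NZ T),
      (Icc (-1 : ℝ) 1).indicator (1 : ℝ → ℝ) (us T n - us T l - y) ≤ C * (T * Real.log T) := by
  obtain ⟨C, hC, h⟩ := momW hRH 2 1
  have hpi := Real.pi_pos
  refine ⟨C, hC, ?_⟩
  filter_upwards [h, eventually_gt_atTop 1] with T h1 hT y
  have hL := Real.log_pos hT
  have hk : 0 < Real.log T / (2 * Real.pi) := by positivity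
  obtain ⟨s, hs⟩ : ∃ s : ℝ, s = y * (2 * Real.pi / Real.log T) := ⟨_, rfl⟩
  have hsy : s * (Real.log T / (2 * Real.pi)) = y := by rw [hs]; field_simp
  -- shifted windows
  have hshift : ∀ (t : ℝ) (l : ℕ), sc T (t - s) l = sc T t l + y := by
    intro t l
    rw [sc_us, sc_us, ← hsy]
    ring
  have hpt : ∀ t, (∑ n ∈ Finset.Icc 1 (NZ T), ∑ l ∈ Finset.Icc 1 (NZ T),
      (Icc (-1 : ℝ) 1).indicator (1 : ℝ → ℝ) (us T n - us T l - y) *
        (Ico (0 : ℝ) 1).indicator (1 : ℝ → ℝ) (sc T t n)) ≤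
      ((Win 2 T t).card : ℝ) * ((Win 2 T (t - s)).card : ℝ) := by
    intro t
    rw [Win_card, Win_card, Finset.sum_mul_sum]
    refine Finset.sum_le_sum fun n _ => Finset.sum_le_sum fun l _ => ?_
    by_cases h2 : us T n - us T l - y ∈ Icc (-1 : ℝ) 1
    · by_cases h3 : sc T t n ∈ Ico (0 : ℝ) 1
      · have h4 : sc T t n ∈ Ico (-((2 : ℕ) : ℝ)) ((2 : ℕ) + 1) := by
          push_cast
          constructor <;> linarith [h3.1, h3.2]
        have h5 : sc T (t - s) l ∈ Ico (-((2 : ℕ) : ℝ)) ((2 : ℕ) + 1) := by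
          rw [hshift]
          have e : sc T t n - sc T t l = us T n - us T l := by rw [sc_us, sc_us]; ring
          push_cast
          constructor <;> linarith [h3.1, h3.2, h2.1, h2.2]
        rw [indicator_of_mem h2, indicator_of_mem h3, indicator_of_mem h4, indicator_of_mem h5]
        simp
      · rw [indicator_of_notMem h3, mul_zero]
        exact mul_nonneg (indicator_nonneg (fun _ _ => zero_le_one) _)
          (indicator_nonneg (fun _ _ => zero_le_one) _)
    · rw [indicator_of_notMem h2, zero_mul]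
      exact mul_nonneg (indicator_nonneg (fun _ _ => zero_le_one) _)
        (indicator_nonneg (fun _ _ => zero_le_one) _)
  have hW := Win_pow_integrable hT 2 1
  have hW2 := hW.comp_sub_right s
  have hint : Integrable fun t => ((∑ n ∈ Finset.Icc 1 (NZ T), ∑ l ∈ Finset.Icc 1 (NZ T),
      (Icc (-1 : ℝ) 1).indicator (1 : ℝ → ℝ) (us T n - us T l - y) *
        (Ico (0 : ℝ) 1).indicator (1 : ℝ → ℝ) (sc T t n)) : ℝ) := by
    refine integrable_finsetSum _ fun n _ => integrable_finsetSum _ fun l _ => ?_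
    exact (integrable_sc hT n (ind_integrable measurableSet_Ico (by simp))).const_mul _
  have h2 : ∫ t, ((∑ n ∈ Finset.Icc 1 (NZ T), ∑ l ∈ Finset.Icc 1 (NZ T),
      (Icc (-1 : ℝ) 1).indicator (1 : ℝ → ℝ) (us T n - us T l - y) *
        (Ico (0 : ℝ) 1).indicator (1 : ℝ → ℝ) (sc T t n)) : ℝ) ≤
      ∫ t, (((Win 2 T t).card : ℝ) ^ (1 + 1) + ((Win 2 T (t - s)).card : ℝ) ^ (1 + 1)) / 2 := by
    refine integral_mono hint ((hW.add hW2).div_const 2) fun t => ?_
    refine (hpt t).trans ?_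
    show ((Win 2 T t).card : ℝ) * ((Win 2 T (t - s)).card : ℝ) ≤
      (((Win 2 T t).card : ℝ) ^ (1 + 1) + ((Win 2 T (t - s)).card : ℝ) ^ (1 + 1)) / 2
    have := sq_nonneg (((Win 2 T t).card : ℝ) - ((Win 2 T (t - s)).card : ℝ))
    nlinarith
  rw [integral_div, integral_add hW hW2,
    integral_sub_right_eq_self (fun t => ((Win 2 T t).card : ℝ) ^ (1 + 1)) s] at h2
  have h3 : ∫ t, ((∑ n ∈ Finset.Icc 1 (NZ T), ∑ l ∈ Finset.Icc 1 (NZ T),
      (Icc (-1 : ℝ) 1).indicator (1 : ℝ → ℝ) (us T n - us T l - y) *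
        (Ico (0 : ℝ) 1).indicator (1 : ℝ → ℝ) (sc T t n)) : ℝ) =
      (2 * Real.pi / Real.log T) * ∑ n ∈ Finset.Icc 1 (NZ T), ∑ l ∈ Finset.Icc 1 (NZ T),
      (Icc (-1 : ℝ) 1).indicator (1 : ℝ → ℝ) (us T n - us T l - y) := by
    rw [integral_finsetSum _ fun n _ => integrable_finsetSum _ fun l _ =>
      (integrable_sc hT n (ind_integrable measurableSet_Ico (by simp))).const_mul _, Finset.mul_sum]
    refine Finset.sum_congr rfl fun n _ => ?_
    rw [integral_finsetSum _ fun l _ =>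
      (integrable_sc hT n (ind_integrable measurableSet_Ico (by simp))).const_mul _, Finset.mul_sum]
    refine Finset.sum_congr rfl fun l _ => ?_
    rw [integral_const_mul, int_sc hT, integral_indicator_one measurableSet_Ico,
      Real.volume_real_Ico_of_le (by norm_num)]
    ring
  rw [h3] at h2
  have h4 : (2 * Real.pi / Real.log T) * ∑ n ∈ Finset.Icc 1 (NZ T), ∑ l ∈ Finset.Icc 1 (NZ T),
      (Icc (-1 : ℝ) 1).indicator (1 : ℝ → ℝ) (us T n - us T l - y) ≤ C * T := by
    linarith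
  obtain ⟨S, hS⟩ : ∃ S : ℝ, S = ∑ n ∈ Finset.Icc 1 (NZ T), ∑ l ∈ Finset.Icc 1 (NZ T),
      (Icc (-1 : ℝ) 1).indicator (1 : ℝ → ℝ) (us T n - us T l - y) := ⟨_, rfl⟩
  rw [← hS] at h4 ⊢
  have hS0 : 0 ≤ S := by
    rw [hS]
    exact Finset.sum_nonneg fun n _ => Finset.sum_nonneg fun l _ => indicator_nonneg (fun _ _ => zero_le_one) _
  rw [div_mul_eq_mul_div, div_le_iff₀ hL] at h4
  have h5 : S ≤ 2 * Real.pi * S := by
    have : 1 ≤ 2 * Real.pi := by linarith [Real.pi_gt_three]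
    nlinarith
  calc S ≤ 2 * Real.pi * S := h5
    _ ≤ C * T * Real.log T := h4
    _ = _ := by ring

/-- a weight is dominated by its local averages -/
lemma wt_avg {lam : ℝ} (z : ℝ) : 1 / (1 + (lam * z) ^ 2) ≤
    (1 + lam ^ 2) * ∫ y, 1 / (1 + (lam * y) ^ 2) * (Icc (-1 : ℝ) 1).indicator (1 : ℝ → ℝ) (z - y) := by
  have h1 : ∀ y, 1 / (1 + (lam * y) ^ 2) * (Icc (-1 : ℝ) 1).indicator (1 : ℝ → ℝ) (z - y) =
      (Icc (z - 1) (z + 1)).indicator (fun y => 1 / (1 + (lam * y) ^ 2)) y := by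
    intro y
    by_cases h : y ∈ Icc (z - 1) (z + 1)
    · rw [indicator_of_mem h, indicator_of_mem (show z - y ∈ Icc (-1 : ℝ) 1 from
        ⟨by linarith [h.2], by linarith [h.1]⟩)]
      simp
    · rw [indicator_of_notMem h, indicator_of_notMem, mul_zero]
      intro h2
      exact h ⟨by linarith [h2.2], by linarith [h2.1]⟩
  simp_rw [h1]
  rw [integral_indicator measurableSet_Icc]
  have hc : Continuous fun y : ℝ => 1 / (1 + (lam * y) ^ 2) := by
    apply Continuous.div continuous_const (by fun_prop)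
    intro y
    positivity
  have h2 : ∫ _y in Icc (z - 1) (z + 1), 1 / (2 * (1 + lam ^ 2) * (1 + (lam * z) ^ 2)) ≤
      ∫ y in Icc (z - 1) (z + 1), 1 / (1 + (lam * y) ^ 2) := by
    refine setIntegral_mono_on (continuous_const.continuousOn.integrableOn_compact isCompact_Icc)
      (hc.continuousOn.integrableOn_compact isCompact_Icc) measurableSet_Icc fun y hy => ?_
    apply one_div_le_one_div_of_le (by positivity)
    have h3 : (y - z) ^ 2 ≤ 1 := by
      have h5 := hy.1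
      have h6 := hy.2
      nlinarith
    have h4 : (lam * y) ^ 2 ≤ 2 * (lam * z) ^ 2 + 2 * lam ^ 2 := by
      have h5 : (lam * y) ^ 2 = lam ^ 2 * y ^ 2 := by ring
      have h6 : y ^ 2 ≤ 2 * z ^ 2 + 2 := by nlinarith [sq_nonneg (y - 2 * z)]
      rw [h5]
      calc lam ^ 2 * y ^ 2 ≤ lam ^ 2 * (2 * z ^ 2 + 2) := by gcongr
        _ = _ := by ring
    nlinarith [sq_nonneg (lam * z), sq_nonneg lam, mul_nonneg (sq_nonneg lam) (sq_nonneg (lam * z))]
  rw [setIntegral_const, Real.volume_real_Icc_of_le (by linarith), smul_eq_mul] at h2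
  have h3 : 1 / (1 + (lam * z) ^ 2) = (1 + lam ^ 2) * ((z + 1 - (z - 1)) *
      (1 / (2 * (1 + lam ^ 2) * (1 + (lam * z) ^ 2)))) := by
    field_simp
    ring
  rw [h3]
  gcongr

/-- summation against a weight with bounded mass -/
lemma wt_sum {lam : ℝ} (hl : 0 < lam) {κ : Type} (I : Finset κ) (z : κ → ℝ) {B : ℝ}
    (hB : ∀ y : ℝ, ∑ k ∈ I, (Icc (-1 : ℝ) 1).indicator (1 : ℝ → ℝ) (z k - y) ≤ B) :
    ∑ k ∈ I, 1 / (1 + (lam * z k) ^ 2) ≤ (1 + lam ^ 2) * (Real.pi / lam) * B := by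
  have hwi : Integrable fun y : ℝ => 1 / (1 + (lam * y) ^ 2) := by
    have := integrable_inv_one_add_sq.comp_mul_left' hl.ne'
    refine this.congr (Eventually.of_forall fun y => ?_)
    show (1 + (lam * y) ^ 2)⁻¹ = 1 / (1 + (lam * y) ^ 2)
    rw [one_div]
  have hwm : ∫ y : ℝ, 1 / (1 + (lam * y) ^ 2) = Real.pi / lam := by
    have h1 := Measure.integral_comp_mul_left (fun x : ℝ => (1 + x ^ 2)⁻¹) lam
    rw [integral_univ_inv_one_add_sq, smul_eq_mul, abs_of_pos (by positivity)] at h1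
    rw [div_eq_inv_mul, ← h1]
    refine integral_congr_ae (Eventually.of_forall fun y => ?_)
    show 1 / (1 + (lam * y) ^ 2) = (1 + (lam * y) ^ 2)⁻¹
    rw [one_div]
  have hki : ∀ k, Integrable fun y => 1 / (1 + (lam * y) ^ 2) *
      (Icc (-1 : ℝ) 1).indicator (1 : ℝ → ℝ) (z k - y) := by
    intro k
    refine hwi.mono' ?_ (Eventually.of_forall fun y => ?_)
    · refine hwi.1.mul ?_
      exact ((measurable_one.indicator measurableSet_Icc).comp
        (measurable_const.sub measurable_id)).aestronglyMeasurable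
    · have h5 : 0 ≤ (Icc (-1 : ℝ) 1).indicator (1 : ℝ → ℝ) (z k - y) :=
        indicator_nonneg (fun _ _ => zero_le_one) _
      have h6 : (Icc (-1 : ℝ) 1).indicator (1 : ℝ → ℝ) (z k - y) ≤ 1 :=
        indicator_le_self' (fun _ _ => zero_le_one) _
      rw [Real.norm_of_nonneg (mul_nonneg (by positivity) h5)]
      exact mul_le_of_le_one_right (by positivity) h6
  calc ∑ k ∈ I, 1 / (1 + (lam * z k) ^ 2) ≤ ∑ k ∈ I, (1 + lam ^ 2) *
        ∫ y, 1 / (1 + (lam * y) ^ 2) * (Icc (-1 : ℝ) 1).indicator (1 : ℝ → ℝ) (z k - y) :=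
        Finset.sum_le_sum fun k _ => wt_avg (z k)
    _ = (1 + lam ^ 2) * ∫ y, ∑ k ∈ I, 1 / (1 + (lam * y) ^ 2) *
          (Icc (-1 : ℝ) 1).indicator (1 : ℝ → ℝ) (z k - y) := by
        rw [← Finset.mul_sum, integral_finsetSum _ fun k _ => hki k]
    _ ≤ (1 + lam ^ 2) * ∫ y, 1 / (1 + (lam * y) ^ 2) * B := by
        gcongr
        · exact integrable_finsetSum _ fun k _ => hki k
        · exact hwi.mul_const B
        · intro y
          show ∑ k ∈ I, 1 / (1 + (lam * y) ^ 2) * (Icc (-1 : ℝ) 1).indicator (1 : ℝ → ℝ) (z k - y) ≤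
            1 / (1 + (lam * y) ^ 2) * B
          rw [← Finset.mul_sum]
          exact mul_le_mul_of_nonneg_left (hB y) (by positivity)
    _ = (1 + lam ^ 2) * (Real.pi / lam) * B := by
        rw [integral_mul_const, hwm]
        ring

/-- the weighted number of pairs, scaled -/
theorem pairs_wt (hRH : RHs) (lam : ℝ) (hl : 0 < lam) : ∃ C : ℝ, 0 < C ∧ ∀ᶠ T : ℝ in atTop,
    ∑ n ∈ Finset.Icc 1 (NZ T), ∑ l ∈ Finset.Icc 1 (NZ T), 1 / (1 + (lam * (us T n - us T l)) ^ 2) ≤
      C * (T * Real.log T) := by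
  obtain ⟨C, hC, h⟩ := pairs_y hRH
  have hpi := Real.pi_pos
  refine ⟨(1 + lam ^ 2) * (Real.pi / lam) * C, by positivity, ?_⟩
  filter_upwards [h] with T h1
  have h2 := wt_sum hl (Finset.Icc 1 (NZ T) ×ˢ Finset.Icc 1 (NZ T)) (fun k => us T k.1 - us T k.2)
    (B := C * (T * Real.log T)) (fun y => by
      rw [Finset.sum_product]
      exact h1 y)
  rw [Finset.sum_product] at h2
  refine h2.trans (le_of_eq ?_)
  ring

/-- zeros in unit intervals -/
lemma unit_count : ∃ C : ℝ, 0 < C ∧ ∀ T : ℝ, 10 ≤ T → ∀ x : ℝ, x ≤ T →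
    ((NZ (x + 1) : ℝ) - NZ x) ≤ C * Real.log T := by
  obtain ⟨C, hC, hz⟩ := H370.zcount H370.good_zeta
  refine ⟨C + NZ 4, by positivity, fun T hT x hx => ?_⟩
  have hlog : 1 ≤ Real.log T := by
    rw [Real.le_log_iff_exp_le (by linarith)]
    linarith [Real.exp_one_lt_d9]
  rcases le_or_gt 3 x with ht | ht
  · have h1 := SG.NZ_le_add x (x + 1) (by linarith)
    have h2 : H370.NN riemannZeta x (x + 1) ≤ H370.NN riemannZeta (x - 1) (x + 1) :=
      H370.NN_mono H370.good_zeta (by linarith) (by linarith) le_rfl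
    have h3 := hz x ht
    have h4 : (NZ (x + 1) : ℝ) ≤ NZ x + H370.NN riemannZeta (x - 1) (x + 1) := by
      exact_mod_cast h1.trans (Nat.add_le_add_left h2 _)
    have h5 : Real.log x ≤ Real.log T := Real.log_le_log (by linarith) hx
    have h6 : C * Real.log x ≤ C * Real.log T := by gcongr
    have h7 : (0 : ℝ) ≤ (NZ 4 : ℝ) * Real.log T := by positivity
    linarith
  · have h1 : (NZ (x + 1) : ℝ) ≤ NZ 4 := by exact_mod_cast SG.NZ_mono (by linarith)
    have h2 : (0 : ℝ) ≤ NZ x := Nat.cast_nonneg _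
    have h3 : (NZ 4 : ℝ) ≤ (NZ 4 : ℝ) * Real.log T := le_mul_of_one_le_right (Nat.cast_nonneg _) hlog
    have h4 : 0 ≤ C * Real.log T := by positivity
    linarith

/-- the number of pairs at bounded distance, with weight -/
theorem pairs_one : ∃ C : ℝ, 0 < C ∧ ∀ᶠ T : ℝ in atTop,
    ∑ n ∈ Finset.Icc 1 (NZ T), ∑ l ∈ Finset.Icc 1 (NZ T), 1 / (1 + (ord n - ord l) ^ 2) ≤
      C * (T * Real.log T ^ 2) := by
  classical
  obtain ⟨C, hC, h⟩ := unit_count
  obtain ⟨T0, hT0, h0⟩ := Pool.Agent.K4H58.KL.NZ_le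
  have hpi := Real.pi_pos
  refine ⟨6 * Real.pi * C, by positivity, ?_⟩
  filter_upwards [eventually_ge_atTop (max 10 T0)] with T hT
  have hT10 : 10 ≤ T := (le_max_left _ _).trans hT
  have hTT0 : T0 ≤ T := (le_max_right _ _).trans hT
  have hL : 0 < Real.log T := Real.log_pos (by linarith)
  -- near a point
  have hnear : ∀ x : ℝ, ∑ l ∈ Finset.Icc 1 (NZ T),
      (Icc (-1 : ℝ) 1).indicator (1 : ℝ → ℝ) (ord l - x) ≤ 3 * (C * Real.log T) := by
    intro x
    have h1 : ∑ l ∈ Finset.Icc 1 (NZ T), (Icc (-1 : ℝ) 1).indicator (1 : ℝ → ℝ) (ord l - x) ≤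
        (((Finset.Icc 1 (NZ T)).filter fun l => ord l - x ∈ Icc (-1 : ℝ) 1).card : ℝ) := by
      rw [Finset.card_filter]
      push_cast
      refine Finset.sum_le_sum fun l _ => ?_
      by_cases h2 : ord l - x ∈ Icc (-1 : ℝ) 1
      · rw [indicator_of_mem h2, if_pos h2]
        simp
      · rw [indicator_of_notMem h2, if_neg h2]
    rcases le_or_gt x (T + 1) with hx | hx
    · have h2 : (Finset.Icc 1 (NZ T)).filter (fun l => ord l - x ∈ Icc (-1 : ℝ) 1) ⊆
          Finset.Ioc (NZ (x - 2)) (NZ (min (x + 1) T)) := by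
        intro l hl
        rw [Finset.mem_filter, Finset.mem_Icc] at hl
        obtain ⟨⟨a1, a2⟩, a3, a4⟩ := hl
        rw [Finset.mem_Ioc]
        constructor
        · by_contra hcon
          push Not at hcon
          have := (SG.ord_le_iff a1 (x - 2)).2 hcon
          linarith
        · refine (SG.ord_le_iff a1 _).1 (le_min (by linarith) ((SG.ord_le_iff a1 _).2 a2))
      have h3 := Finset.card_le_card h2
      rw [Nat.card_Ioc] at h3
      have hm1 : NZ (x - 2) ≤ NZ (x - 1) := SG.NZ_mono (by linarith)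
      have hm2 : NZ (x - 1) ≤ NZ x := SG.NZ_mono (by linarith)
      have hm3 : NZ x ≤ NZ (x + 1) := SG.NZ_mono (by linarith)
      have g1 := h T hT10 (x - 2) (by linarith)
      have g2 := h T hT10 (x - 1) (by linarith)
      rw [show x - 2 + 1 = x - 1 by ring] at g1
      rw [show x - 1 + 1 = x by ring] at g2
      have g0 : 0 ≤ C * Real.log T := by positivity
      rcases le_or_gt x T with hxT | hxT
      · have g3 := h T hT10 x hxT
        have h4 : NZ (min (x + 1) T) ≤ NZ (x + 1) := SG.NZ_mono (min_le_left _ _)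
        have h5 : (((NZ (min (x + 1) T) - NZ (x - 2) : ℕ)) : ℝ) ≤ (NZ (x + 1) : ℝ) - NZ (x - 2) := by
          rw [sub_eq_add_neg]
          have : NZ (min (x + 1) T) - NZ (x - 2) ≤ NZ (x + 1) - NZ (x - 2) := Nat.sub_le_sub_right h4 _
          have h6 : ((NZ (x + 1) - NZ (x - 2) : ℕ) : ℝ) = (NZ (x + 1) : ℝ) - NZ (x - 2) :=
            Nat.cast_sub (hm1.trans (hm2.trans hm3))
          rw [← sub_eq_add_neg, ← h6]
          exact_mod_cast this
        have h7 : (((Finset.Icc 1 (NZ T)).filter fun l => ord l - x ∈ Icc (-1 : ℝ) 1).card : ℝ) ≤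
          ((NZ (min (x + 1) T) - NZ (x - 2) : ℕ) : ℝ) := by exact_mod_cast h3
        linarith
      · have h4 : NZ (min (x + 1) T) ≤ NZ x := SG.NZ_mono ((min_le_right _ _).trans hxT.le)
        have h5 : (((NZ (min (x + 1) T) - NZ (x - 2) : ℕ)) : ℝ) ≤ (NZ x : ℝ) - NZ (x - 2) := by
          have : NZ (min (x + 1) T) - NZ (x - 2) ≤ NZ x - NZ (x - 2) := Nat.sub_le_sub_right h4 _
          have h6 : ((NZ x - NZ (x - 2) : ℕ) : ℝ) = (NZ x : ℝ) - NZ (x - 2) :=
            Nat.cast_sub (hm1.trans hm2)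
          rw [← h6]
          exact_mod_cast this
        have h7 : (((Finset.Icc 1 (NZ T)).filter fun l => ord l - x ∈ Icc (-1 : ℝ) 1).card : ℝ) ≤
          ((NZ (min (x + 1) T) - NZ (x - 2) : ℕ) : ℝ) := by exact_mod_cast h3
        linarith
    · have h2 : (Finset.Icc 1 (NZ T)).filter (fun l => ord l - x ∈ Icc (-1 : ℝ) 1) = ∅ := by
        rw [Finset.filter_eq_empty_iff]
        intro l hl h3
        rw [Finset.mem_Icc] at hl
        have := (SG.ord_le_iff hl.1 T).2 hl.2
        linarith [h3.1]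
      rw [h2] at h1
      refine h1.trans ?_
      simp only [Finset.card_empty, Nat.cast_zero]
      positivity
  have hin : ∀ n, ∑ l ∈ Finset.Icc 1 (NZ T), 1 / (1 + (ord n - ord l) ^ 2) ≤
      (1 + 1 ^ 2) * (Real.pi / 1) * (3 * (C * Real.log T)) := by
    intro n
    have h1 := wt_sum (lam := 1) one_pos (Finset.Icc 1 (NZ T)) (fun l => ord l - ord n)
      (B := 3 * (C * Real.log T)) (fun y => by
        have := hnear (ord n + y)
        refine le_trans (le_of_eq ?_) this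
        refine Finset.sum_congr rfl fun l _ => ?_
        congr 1
        ring)
    refine le_trans (le_of_eq ?_) h1
    refine Finset.sum_congr rfl fun l _ => ?_
    rw [one_mul, show (ord n - ord l) ^ 2 = (ord l - ord n) ^ 2 by ring]
  calc ∑ n ∈ Finset.Icc 1 (NZ T), ∑ l ∈ Finset.Icc 1 (NZ T), 1 / (1 + (ord n - ord l) ^ 2) ≤
      ∑ _n ∈ Finset.Icc 1 (NZ T), (1 + 1 ^ 2) * (Real.pi / 1) * (3 * (C * Real.log T)) :=
        Finset.sum_le_sum fun n _ => hin n
    _ = (NZ T : ℝ) * (6 * Real.pi * C * Real.log T) := by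
        rw [Finset.sum_const, Nat.card_Icc, nsmul_eq_mul]
        simp only [Nat.add_sub_cancel]
        ring
    _ ≤ (T * Real.log T) * (6 * Real.pi * C * Real.log T) := by
        have := h0 T hTT0
        gcongr
    _ = _ := by ring

end

end Pool.Agent.K4H58.DR
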