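import Pool.Agent.K4H58.DR.Ker
import Pool.Agent.K4H58.DR.Prs
import Pool.Agent.H321R3.PC.Det

/-! # The pair sum against the Fejer kernel: blocks, on RH -/

set_option autoImplicit false

namespace Pool.Agent.K4H58.DR

open Filter Topology MeasureTheory Set
open SG (ord NZ zmult)
open SP (RHs)
open H370 (Zf good_zeta mult JJ)
open H370.A2 (RR JN PS)

noncomputable section

/-- the pair sum -/
def Qf (a : ℝ) (A : Finset ℕ) : ℝ := ∑ n ∈ A, ∑ l ∈ A, hh (a * (ord n - ord l))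

/-- the pair sum with Gaussian damping -/
def Qd (a : ℝ) (A : Finset ℕ) : ℝ :=
  ∑ n ∈ A, ∑ l ∈ A, hh (a * (ord n - ord l)) * Real.exp (-(ord n - ord l) ^ 2 / 4)

lemma re_half (RH : RiemannHypothesis) {s : ℂ} (h0 : riemannZeta s = 0) (him : 0 < s.im) :
    s.re = 1 / 2 := by
  apply RH s h0
  · rintro ⟨n, hn⟩
    rw [hn] at him
    simp at him
  · intro h
    rw [h] at him
    simp at him

lemma zero_at (RH : RiemannHypothesis) {n : ℕ} (hn : 1 ≤ n) :
    riemannZeta (1 / 2 + Complex.I * ord n : ℂ) = 0 := by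
  have hpos := SG.ord_pos hn
  have h := SG.ord_count (ord n) hpos
  have hne : {m : ℕ | 1 ≤ m ∧ ord m = ord n}.ncard ≠ 0 := by
    have hfin : {m : ℕ | 1 ≤ m ∧ ord m = ord n}.Finite := by
      refine (Set.finite_Iic (NZ (ord n))).subset ?_
      rintro m ⟨a1, a2⟩
      exact (SG.ord_le_iff a1 _).mp a2.le
    rw [Ne, Set.ncard_eq_zero hfin]
    exact Set.Nonempty.ne_empty ⟨n, hn, rfl⟩
  rw [h] at hne
  obtain ⟨z, hz⟩ := exists_ne_zero_of_finsum_mem_ne_zero hne
  obtain ⟨⟨a1, a2, a3, a4⟩, -⟩ := hz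
  have hzim : 0 < z.im := a4 ▸ hpos
  have hz2 := re_half RH a1 hzim
  have e : (1 / 2 + Complex.I * ord n : ℂ) = z := by
    apply Complex.ext
    · simp [hz2]
    · simp [a4]
  rw [e]
  exact a1

lemma mem_J {A B : ℝ} {n : ℕ} (hn : 1 ≤ n) :
    n ∈ Finset.Ioc (NZ A) (NZ B) ↔ A < ord n ∧ ord n ≤ B := by
  rw [Finset.mem_Ioc]
  constructor
  · rintro ⟨h1, h2⟩
    refine ⟨?_, (SG.ord_le_iff hn _).mpr h2⟩
    by_contra h
    push Not at h
    have := (SG.ord_le_iff hn _).mp h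
    omega
  · rintro ⟨h1, h2⟩
    refine ⟨?_, (SG.ord_le_iff hn _).mp h2⟩
    by_contra h
    push Not at h
    have := (SG.ord_le_iff hn _).mpr h
    linarith

/-- sums over zeros as sums over indices -/
theorem sum_idx (RH : RiemannHypothesis) {A B : ℝ} (hA : 1 ≤ A) (F : ℝ → ℝ) :
    ∑ s ∈ Zf riemannZeta A B, (mult riemannZeta s : ℝ) * F s.im =
      ∑ n ∈ Finset.Ioc (NZ A) (NZ B), F (ord n) := by
  classical
  obtain ⟨J, hJ⟩ : ∃ J, J = Finset.Ioc (NZ A) (NZ B) := ⟨_, rfl⟩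
  rw [← hJ]
  have hJ1 : ∀ n ∈ J, 1 ≤ n := fun n hn => by
    rw [hJ, Finset.mem_Ioc] at hn
    omega
  have hmap : ∀ n ∈ J, (1 / 2 + Complex.I * ord n : ℂ) ∈ Zf riemannZeta A B := by
    intro n hn
    have h1 := hJ1 n hn
    rw [hJ] at hn
    obtain ⟨h2, h3⟩ := (mem_J h1).1 hn
    rw [H370.mem_Zf good_zeta hA]
    have hre : (1 / 2 + Complex.I * ord n : ℂ).re = 1 / 2 := by simp
    have him : (1 / 2 + Complex.I * ord n : ℂ).im = ord n := by simp
    refine ⟨by rw [hre]; norm_num, by rw [hre]; norm_num, by rw [him]; exact h2,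
      by rw [him]; exact h3, zero_at RH h1⟩
  rw [← Finset.sum_fiberwise_of_maps_to hmap]
  refine Finset.sum_congr rfl fun s hs => ?_
  obtain ⟨h1, h2, h3, h4⟩ := H370.A3.on_line RH hA hs
  have him : 0 < s.im := by linarith
  have hz : riemannZeta s = 0 := by rw [← h1]; exact h4
  have hre := re_half RH hz him
  have hcard : (J.filter (fun n => (1 / 2 + Complex.I * ord n : ℂ) = s)).card = mult riemannZeta s := by
    have h := SG.ord_count s.im him
    have e1 : {z : ℂ | riemannZeta z = 0 ∧ 0 < z.re ∧ z.re < 1 ∧ z.im = s.im} = {s} := by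
      ext z
      constructor
      · rintro ⟨a1, a2, a3, a4⟩
        have hz : z.re = 1 / 2 := re_half RH a1 (a4 ▸ him)
        exact Complex.ext (hz.trans hre.symm) a4
      · rintro rfl
        exact ⟨hz, by rw [hre]; norm_num, by rw [hre]; norm_num, rfl⟩
    rw [e1, finsum_mem_singleton] at h
    have h5 : mult riemannZeta s = zmult s := rfl
    rw [h5, ← h, ← Set.ncard_coe_finset]
    congr 1
    ext n
    simp only [Finset.coe_filter, Set.mem_ofPred_eq]
    constructor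
    · rintro ⟨b1, b2⟩
      refine ⟨hJ1 n b1, ?_⟩
      have := congrArg Complex.im b2
      simpa using this
    · rintro ⟨b1, b3⟩
      refine ⟨?_, ?_⟩
      · rw [hJ]
        exact (mem_J b1).2 ⟨by rw [b3]; exact h2, by rw [b3]; exact h3⟩
      · rw [b3]
        exact h1
  have hc : ∀ n ∈ J.filter (fun n => (1 / 2 + Complex.I * ord n : ℂ) = s), F (ord n) = F s.im := by
    intro n hn
    have := congrArg Complex.im (Finset.mem_filter.1 hn).2
    have h6 : ord n = s.im := by simpa using this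
    rw [h6]
  rw [Finset.sum_congr rfl hc, Finset.sum_const, hcard, nsmul_eq_mul]

lemma sum_idx2 (RH : RiemannHypothesis) {A B : ℝ} (hA : 1 ≤ A) (F : ℝ → ℝ) :
    ∑ s ∈ Zf riemannZeta A B, ∑ s' ∈ Zf riemannZeta A B,
      (mult riemannZeta s : ℝ) * (mult riemannZeta s' : ℝ) * F (s.im - s'.im) =
      ∑ n ∈ Finset.Ioc (NZ A) (NZ B), ∑ l ∈ Finset.Ioc (NZ A) (NZ B), F (ord n - ord l) := by
  have h1 := sum_idx RH hA (B := B) (fun x => ∑ l ∈ Finset.Ioc (NZ A) (NZ B), F (x - ord l))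
  rw [← h1]
  refine Finset.sum_congr rfl fun s _ => ?_
  have h2 := sum_idx RH hA (B := B) (fun y => F (s.im - y))
  rw [← h2, Finset.mul_sum]
  refine Finset.sum_congr rfl fun s' _ => ?_
  ring

lemma JN_cont' {A B : ℝ} (hA : 1 ≤ A) : Continuous fun u : ℝ => JN riemannZeta A B u := by
  unfold H370.A2.JN
  exact (H370.JJ_cont good_zeta hA).div_const _

lemma PS_JN (A B L : ℝ) : PS tent riemannZeta A B L =
    2 * ∫ α in (0 : ℝ)..1, tent α * JN riemannZeta A B (L * α) := by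
  unfold H370.A2.PS H370.A2.JN
  rw [div_mul_eq_mul_div, mul_div_assoc, ← intervalIntegral.integral_div]
  congr 1
  refine intervalIntegral.integral_congr fun α _ => ?_
  show tent α * JJ riemannZeta A B (L * α) / Real.sqrt Real.pi = _
  rw [mul_div_assoc]

/-- the pair sum of a block -/
lemma PS_Qd (RH : RiemannHypothesis) {A B : ℝ} (hA : 1 ≤ A) (L : ℝ) :
    PS tent riemannZeta A B L = Qd (L / (2 * Real.pi)) (Finset.Ioc (NZ A) (NZ B)) := by
  have h1 := H370.A2.int_JN RH hA (B := B) tent_cont 1 L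
  have h2 : ∫ α in (-1 : ℝ)..1, tent α * JN riemannZeta A B (α * L) =
      2 * ∫ α in (0 : ℝ)..1, tent α * JN riemannZeta A B (α * L) := by
    refine int_even ?_ ?_ 1
    · exact tent_cont.mul ((JN_cont' hA).comp (by fun_prop))
    · intro α
      rw [tent_even]
      unfold H370.A2.JN
      rw [neg_mul, H370.JJ_even good_zeta hA]
  have h3 : PS tent riemannZeta A B L = 2 * ∫ α in (0 : ℝ)..1, tent α * JN riemannZeta A B (α * L) := by
    rw [PS_JN]
    simp_rw [mul_comm L]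
  rw [h3, ← h2, h1]
  have h4 := sum_idx2 RH hA (B := B)
    (fun d => RR tent 1 (d * L / (2 * Real.pi)) * Real.exp (-d ^ 2 / 4))
  rw [h4]
  unfold Qd hh
  refine Finset.sum_congr rfl fun n _ => Finset.sum_congr rfl fun l _ => ?_
  congr 2
  ring

/-- monotonicity in the scale -/
lemma PS_mono {A B L L' : ℝ} (hA : 1 ≤ A) (hL : 0 < L) (hLL : L ≤ L') :
    L * PS tent riemannZeta A B L ≤ L' * PS tent riemannZeta A B L' := by
  have hL' : 0 < L' := lt_of_lt_of_le hL hLL
  have key : ∀ M : ℝ, 0 < M → M * PS tent riemannZeta A B M =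
      2 * ∫ u in (0 : ℝ)..M, tent (u / M) * JN riemannZeta A B u := by
    intro M hM
    rw [PS_JN]
    have h1 := intervalIntegral.mul_integral_comp_mul_left (a := 0) (b := 1)
      (f := fun u => tent (u / M) * JN riemannZeta A B u) (c := M)
    rw [mul_zero, mul_one] at h1
    rw [← h1]
    have h2 : ∫ x in (0 : ℝ)..1, tent (M * x / M) * JN riemannZeta A B (M * x) =
        ∫ α in (0 : ℝ)..1, tent α * JN riemannZeta A B (M * α) := by
      refine intervalIntegral.integral_congr fun x _ => ?_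
      show tent (M * x / M) * JN riemannZeta A B (M * x) = _
      rw [mul_div_cancel_left₀ x hM.ne']
    rw [h2]
    ring
  rw [key L hL, key L' hL']
  have hJ := JN_cont' (B := B) hA
  have c1 : Continuous fun u : ℝ => tent (u / L) * JN riemannZeta A B u :=
    (tent_cont.comp (by fun_prop)).mul hJ
  have c2 : Continuous fun u : ℝ => tent (u / L') * JN riemannZeta A B u :=
    (tent_cont.comp (by fun_prop)).mul hJ
  have h1 : ∫ u in (0 : ℝ)..L, tent (u / L) * JN riemannZeta A B u ≤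
      ∫ u in (0 : ℝ)..L, tent (u / L') * JN riemannZeta A B u := by
    refine intervalIntegral.integral_mono_on hL.le (c1.intervalIntegrable _ _)
      (c2.intervalIntegrable _ _) fun u hu => ?_
    refine mul_le_mul_of_nonneg_right ?_ (H370.A3.JN_nonneg _ _ _ _)
    rw [tent_pos_eq hL hu.1 hu.2, tent_pos_eq hL' hu.1 (hu.2.trans hLL)]
    have h3 : u / L' ≤ u / L := div_le_div_of_nonneg_left hu.1 hL hLL
    linarith
  have h2 : ∫ u in (0 : ℝ)..L, tent (u / L') * JN riemannZeta A B u ≤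
      ∫ u in (0 : ℝ)..L', tent (u / L') * JN riemannZeta A B u := by
    refine intervalIntegral.integral_mono_interval le_rfl hL.le hLL ?_ (c2.intervalIntegrable _ _)
    exact Eventually.of_forall fun u => mul_nonneg (tent_nonneg _) (H370.A3.JN_nonneg _ _ _ _)
  linarith

lemma tent_Conv : H295SI.Conv tent := by
  refine ⟨tent_nonneg, ?_, ⟨1, one_pos, fun x y => ?_⟩, tent_even, fun α h => ?_⟩
  · intro x hx y hy hxy
    rw [mem_Ici] at hx hy
    unfold tent
    rw [abs_of_nonneg hx, abs_of_nonneg hy]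
    exact max_le_max le_rfl (by linarith)
  · unfold tent
    rw [max_comm 0, max_comm 0, one_mul]
    refine (abs_max_sub_max_le_abs _ _ 0).trans ?_
    have h1 : 1 - |x| - (1 - |y|) = |y| - |x| := by ring
    rw [h1, abs_sub_comm x y]
    exact abs_abs_sub_abs_le_abs_sub y x
  · apply tent_zero
    rw [abs_of_pos (by linarith)]
    exact h.le

lemma cR_tent {μ : ℝ} : H295SI.cR tent μ = 1 / μ + μ / 3 := by
  unfold H295SI.cR
  have h0 : tent 0 = 1 := by unfold tent; simp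
  have h1 : ∫ α in (0 : ℝ)..1, α * tent α = 1 / 6 := by
    have h2 : ∫ α in (0 : ℝ)..1, α * tent α = ∫ α in (0 : ℝ)..1, (α - α ^ 2) := by
      refine intervalIntegral.integral_congr fun α hα => ?_
      rw [Set.uIcc_of_le zero_le_one] at hα
      show α * tent α = α - α ^ 2
      have h3 := tent_pos_eq (lam := 1) one_pos hα.1 hα.2
      rw [div_one] at h3
      rw [h3]
      ring
    rw [h2, intervalIntegral.integral_sub (Continuous.intervalIntegrable (by fun_prop) _ _)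
      (Continuous.intervalIntegrable (by fun_prop) _ _)]
    simp
    norm_num
  rw [h0, h1]
  ring

/-- **one block** -/
theorem block (RH : RiemannHypothesis) {μ ε : ℝ} (hμ : 0 < μ) (hμ1 : μ < 1) (hε : 0 < ε) :
    ∃ V0 : ℝ, 10 ≤ V0 ∧ ∀ V : ℝ, V0 ≤ V → ∀ L : ℝ, 0 < L → L ≤ μ * Real.log V →
      Qd (L / (2 * Real.pi)) (Finset.Ioc (NZ (V + 1)) (NZ (2 * V - 1))) ≤
        (μ * Real.log V / L) * (1 / μ + μ / 3 + ε) * (V * Real.log V / (2 * Real.pi)) := by
  obtain ⟨V0, hV0, h⟩ := H321PC.det_pair RH tent_Conv μ ε hμ hμ1 hε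
  refine ⟨V0, hV0, fun V hV L hL hLV => ?_⟩
  have hV10 : 10 ≤ V := hV0.trans hV
  have hlog : 0 < Real.log V := Real.log_pos (by linarith)
  have hpi := Real.pi_pos
  have h1 := (abs_le.1 (h V hV)).2
  rw [cR_tent] at h1
  rw [← PS_Qd RH (by linarith)]
  have h2 := PS_mono (A := V + 1) (B := 2 * V - 1) (by linarith) hL hLV
  obtain ⟨P, hP⟩ : ∃ P, P = PS tent riemannZeta (V + 1) (2 * V - 1) (μ * Real.log V) := ⟨_, rfl⟩
  rw [← hP] at h1 h2
  have h3 : P ≤ (1 / μ + μ / 3 + ε) * (V * Real.log V / (2 * Real.pi)) := by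
    have h4 : (2 * V - 1 - (V + 1)) * Real.log V / (2 * Real.pi) ≤ V * Real.log V / (2 * Real.pi) := by
      gcongr
      linarith
    have h5 : 0 ≤ 1 / μ + μ / 3 + ε := by positivity
    calc P ≤ (1 / μ + μ / 3 + ε) * ((2 * V - 1 - (V + 1)) * Real.log V / (2 * Real.pi)) := by linarith
      _ ≤ _ := by gcongr
  have h6 : PS tent riemannZeta (V + 1) (2 * V - 1) L ≤ μ * Real.log V * P / L := by
    rw [le_div_iff₀ hL, mul_comm]
    exact h2
  refine h6.trans ?_
  rw [mul_div_right_comm, mul_assoc]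
  gcongr

/-- the transform as a positive combination -/
lemma Qf_eq (a : ℝ) (A : Finset ℕ) : Qf a A = ∫ α in (-1 : ℝ)..1, tent α *
    ((∑ n ∈ A, Real.cos (2 * Real.pi * α * (a * ord n))) ^ 2 +
      (∑ n ∈ A, Real.sin (2 * Real.pi * α * (a * ord n))) ^ 2) := by
  unfold Qf hh RR
  have h1 : ∀ α : ℝ, tent α * ((∑ n ∈ A, Real.cos (2 * Real.pi * α * (a * ord n))) ^ 2 +
      (∑ n ∈ A, Real.sin (2 * Real.pi * α * (a * ord n))) ^ 2) =
      ∑ n ∈ A, ∑ l ∈ A, tent α * Real.cos (2 * Real.pi * α * (a * (ord n - ord l))) := by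
    intro α
    rw [pow_two, pow_two, Finset.sum_mul_sum, Finset.sum_mul_sum, ← Finset.sum_add_distrib,
      Finset.mul_sum]
    refine Finset.sum_congr rfl fun n _ => ?_
    rw [← Finset.sum_add_distrib, Finset.mul_sum]
    refine Finset.sum_congr rfl fun l _ => ?_
    rw [show 2 * Real.pi * α * (a * (ord n - ord l)) = 2 * Real.pi * α * (a * ord n) -
      2 * Real.pi * α * (a * ord l) by ring, Real.cos_sub]
  simp_rw [h1]
  have hc : ∀ n l : ℕ, Continuous fun α : ℝ =>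
      tent α * Real.cos (2 * Real.pi * α * (a * (ord n - ord l))) := fun n l =>
    tent_cont.mul (by fun_prop)
  rw [intervalIntegral.integral_finsetSum fun n _ =>
    (continuous_finsetSum _ fun l _ => hc n l).intervalIntegrable _ _]
  refine Finset.sum_congr rfl fun n _ => ?_
  rw [intervalIntegral.integral_finsetSum fun l _ => (hc n l).intervalIntegrable _ _]

/-- splitting the index set -/
lemma Qf_split (a : ℝ) {A B : Finset ℕ} (hAB : Disjoint A B) {θ : ℝ} (hθ : 0 < θ) :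
    Qf a (A ∪ B) ≤ (1 + θ) * Qf a A + (1 + 1 / θ) * Qf a B := by
  have hc : ∀ S : Finset ℕ, Continuous fun α : ℝ => tent α *
      ((∑ n ∈ S, Real.cos (2 * Real.pi * α * (a * ord n))) ^ 2 +
        (∑ n ∈ S, Real.sin (2 * Real.pi * α * (a * ord n))) ^ 2) := by
    intro S
    refine tent_cont.mul ?_
    fun_prop
  rw [Qf_eq, Qf_eq, Qf_eq, ← intervalIntegral.integral_const_mul, ← intervalIntegral.integral_const_mul,
    ← intervalIntegral.integral_add (((hc A).const_mul _).intervalIntegrable _ _)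
    (((hc B).const_mul _).intervalIntegrable _ _)]
  refine intervalIntegral.integral_mono_on (by norm_num) ((hc _).intervalIntegrable _ _)
    ((((hc A).const_mul _).add ((hc B).const_mul _)).intervalIntegrable _ _) fun α _ => ?_
  rw [Finset.sum_union hAB, Finset.sum_union hAB]
  have key : ∀ x y : ℝ, (x + y) ^ 2 ≤ (1 + θ) * x ^ 2 + (1 + 1 / θ) * y ^ 2 := by
    intro x y
    have h1 : 0 ≤ (θ * x - y) ^ 2 / θ := by positivity
    have h2 : (θ * x - y) ^ 2 / θ = θ * x ^ 2 - 2 * x * y + y ^ 2 / θ := by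
      field_simp
      ring
    rw [h2] at h1
    have h3 : (1 + θ) * x ^ 2 + (1 + 1 / θ) * y ^ 2 = x ^ 2 + θ * x ^ 2 + y ^ 2 + y ^ 2 / θ := by ring
    rw [h3]
    nlinarith
  obtain ⟨c1, hc1⟩ : ∃ z, z = ∑ n ∈ A, Real.cos (2 * Real.pi * α * (a * ord n)) := ⟨_, rfl⟩
  obtain ⟨c2, hc2⟩ : ∃ z, z = ∑ n ∈ B, Real.cos (2 * Real.pi * α * (a * ord n)) := ⟨_, rfl⟩
  obtain ⟨s1, hs1⟩ : ∃ z, z = ∑ n ∈ A, Real.sin (2 * Real.pi * α * (a * ord n)) := ⟨_, rfl⟩
  obtain ⟨s2, hs2⟩ : ∃ z, z = ∑ n ∈ B, Real.sin (2 * Real.pi * α * (a * ord n)) := ⟨_, rfl⟩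
  rw [← hc1, ← hc2, ← hs1, ← hs2]
  have h1 := key c1 c2
  have h2 := key s1 s2
  calc tent α * ((c1 + c2) ^ 2 + (s1 + s2) ^ 2) ≤
      tent α * (((1 + θ) * c1 ^ 2 + (1 + 1 / θ) * c2 ^ 2) + ((1 + θ) * s1 ^ 2 + (1 + 1 / θ) * s2 ^ 2)) := by
        refine mul_le_mul_of_nonneg_left (by linarith) (tent_nonneg _)
    _ = _ := by ring

lemma Qf_mono (a : ℝ) {A B : Finset ℕ} (hAB : A ⊆ B) : Qf a A ≤ Qf a B := by
  unfold Qf
  calc ∑ n ∈ A, ∑ l ∈ A, hh (a * (ord n - ord l)) ≤ ∑ n ∈ A, ∑ l ∈ B, hh (a * (ord n - ord l)) :=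
        Finset.sum_le_sum fun n _ => Finset.sum_le_sum_of_subset_of_nonneg hAB fun _ _ _ => hh_nonneg _
    _ ≤ _ := Finset.sum_le_sum_of_subset_of_nonneg hAB fun _ _ _ =>
        Finset.sum_nonneg fun _ _ => hh_nonneg _

lemma Qf_card (a : ℝ) (A : Finset ℕ) : Qf a A ≤ (A.card : ℝ) ^ 2 := by
  unfold Qf
  calc ∑ n ∈ A, ∑ l ∈ A, hh (a * (ord n - ord l)) ≤ ∑ _n ∈ A, ∑ _l ∈ A, (1 : ℝ) :=
        Finset.sum_le_sum fun n _ => Finset.sum_le_sum fun l _ => hh_le _
    _ = _ := by simp [pow_two]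

lemma hh_wt (x : ℝ) : hh x ≤ 2 / (1 + x ^ 2) := by
  rw [le_div_iff₀ (by positivity)]
  have h1 := hh_le x
  have h2 := hh_dec x
  linarith

/-- removing the damping and the cross terms -/
lemma damp {a d : ℝ} (ha : 0 < a) :
    hh (a * d) * (1 - Real.exp (-d ^ 2 / 4)) ≤ 5 / (4 * a ^ 2) * (1 / (1 + d ^ 2)) := by
  rcases eq_or_ne d 0 with h0 | h0
  · rw [h0]
    simp
    positivity
  have hd2 : 0 < d ^ 2 := by positivity
  have he2 : (1 - Real.exp (-d ^ 2 / 4)) * (1 + d ^ 2) ≤ 5 / 4 * d ^ 2 := by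
    have h1 := Real.add_one_le_exp (-d ^ 2 / 4)
    have h2 := Real.exp_pos (-d ^ 2 / 4)
    rcases le_total (d ^ 2) 4 with h | h
    · nlinarith
    · nlinarith
  have h3 : hh (a * d) ≤ 1 / (a ^ 2 * d ^ 2) := by
    rw [le_div_iff₀ (by positivity)]
    have := hh_dec (a * d)
    rwa [mul_pow] at this
  rw [mul_one_div, le_div_iff₀ (by positivity)]
  have he1 : 0 ≤ 1 - Real.exp (-d ^ 2 / 4) := by
    have : Real.exp (-d ^ 2 / 4) ≤ 1 := by
      rw [Real.exp_le_one_iff]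
      linarith
    linarith
  calc hh (a * d) * (1 - Real.exp (-d ^ 2 / 4)) * (1 + d ^ 2) =
      hh (a * d) * ((1 - Real.exp (-d ^ 2 / 4)) * (1 + d ^ 2)) := by ring
    _ ≤ 1 / (a ^ 2 * d ^ 2) * (5 / 4 * d ^ 2) := by
        apply mul_le_mul h3 he2 (mul_nonneg he1 (by positivity)) (by positivity)
    _ = 5 / (4 * a ^ 2) := by field_simp

lemma cross {a d : ℝ} (ha : 0 < a) (hd : 2 ≤ |d|) :
    hh (a * d) ≤ 5 / (4 * a ^ 2) * (1 / (1 + d ^ 2)) := by
  have hd2 : 4 ≤ d ^ 2 := by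
    rw [← sq_abs]
    nlinarith
  have h3 : hh (a * d) ≤ 1 / (a ^ 2 * d ^ 2) := by
    rw [le_div_iff₀ (by positivity)]
    have := hh_dec (a * d)
    rwa [mul_pow] at this
  refine h3.trans ?_
  rw [mul_one_div, div_div, div_le_div_iff₀ (by positivity) (by positivity)]
  have : 0 < a ^ 2 := by positivity
  nlinarith

end

end Pool.Agent.K4H58.DR
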