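import Pool.Agent.K4H58.KL.Lev
import Pool.Agent.K4H58.KL.Bk

/-! # Dropping a far side, for general densities and along a filter, on RH -/

set_option autoImplicit false

namespace Pool.Agent.K4H58.DR

open Filter Topology MeasureTheory Set
open SG (ord NZ)
open SP (RHs)
open Pool.Agent.R320.KL
open Pool.Agent.K4H58.KL (cmp2 int_cons Nk_fib Fb mem_Fb NZ_lim cons_cont)

noncomputable section

/-- the main size -/
def XT (T : ℝ) : ℝ := T / (2 * Real.pi) * Real.log T

/-- the asymptotics with density `g` along the filter `l`, for all boxes with `m` sides -/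
def LG (l : Filter ℝ) (m : ℕ) (g : (Fin m → ℝ) → ℝ) : Prop :=
  ∀ x y : Fin m → ℝ, (∀ i, x i ≤ y i) →
    Tendsto (fun T : ℝ => (Nk T x y : ℝ) / XT T) l (𝓝 (∫ u in Icc x y, g u))

theorem dropG (hRH : RHs) {l : Filter ℝ} [l.NeBot] (hl : l ≤ atTop) {m : ℕ}
    {g : (Fin (m + 1) → ℝ) → ℝ} {g' : (Fin m → ℝ) → ℝ} (hg : Continuous g) {M : ℝ}
    (hM : ∀ w, |g w| ≤ M)
    (hlim : ∀ u : Fin m → ℝ, Tendsto (fun v : ℝ => g (Fin.cons v u : Fin (m + 1) → ℝ)) atTop (𝓝 (g' u)))
    (h : LG l (m + 1) g) : LG l m g' := by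
  intro x y hxy
  obtain ⟨G, hG⟩ : ∃ G : ℝ, G = ∫ u in Icc x y, g' u := ⟨_, rfl⟩
  have hK : Tendsto (fun v : ℝ => ∫ u in Icc x y, g (Fin.cons v u : Fin (m + 1) → ℝ)) atTop (𝓝 G) := by
    rw [hG]
    refine tendsto_integral_filter_of_dominated_convergence (fun _ => M) ?_ ?_ ?_ ?_
    · refine Eventually.of_forall fun v => ?_
      refine Continuous.aestronglyMeasurable ?_
      exact hg.comp ((cons_cont m).comp
        (f := fun u : Fin m → ℝ => ((v, u) : ℝ × (Fin m → ℝ))) (continuous_const.prodMk continuous_id))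
    · exact Eventually.of_forall fun v => Eventually.of_forall fun u => hM _
    · exact integrableOn_const (by exact isCompact_Icc.measure_lt_top.ne)
    · exact Eventually.of_forall fun u => hlim u
  rw [Metric.tendsto_nhds]
  intro ε hε
  obtain ⟨v0, hv0⟩ := eventually_atTop.1 (hK.eventually (Metric.closedBall_mem_nhds _
    (by positivity : 0 < ε / 4)))
  obtain ⟨A0, hA0, h1⟩ := cmp2 hRH x y 1 (ε / 4) (by positivity)
  obtain ⟨a, ha⟩ : ∃ a, a = max v0 0 := ⟨_, rfl⟩
  have hav0 : v0 ≤ a := by rw [ha]; exact le_max_left _ _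
  have ha0 : 0 ≤ a := by rw [ha]; exact le_max_right _ _
  obtain ⟨b, hb⟩ : ∃ b, b = a + A0 := ⟨_, rfl⟩
  have hab : a < b := by rw [hb]; linarith
  obtain ⟨A, hA⟩ : ∃ A, A = max A0 b := ⟨_, rfl⟩
  have hAA0 : A0 ≤ A := by rw [hA]; exact le_max_left _ _
  have hbA : b ≤ A := by rw [hA]; exact le_max_right _ _
  have h3 := h (Fin.cons a x : Fin (m + 1) → ℝ) (Fin.cons b y) (fun i => by
    refine Fin.cases ?_ (fun j => ?_) i
    · simpa using hab.le
    · simpa using hxy j)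
  rw [int_cons a b x y g hg] at h3
  have h4 : |(∫ v in Icc a b, ∫ u in Icc x y, g (Fin.cons v u : Fin (m + 1) → ℝ)) - (b - a) * G| ≤
      ε / 4 * (b - a) := by
    have hc : Continuous fun v : ℝ => ∫ u in Icc x y, g (Fin.cons v u : Fin (m + 1) → ℝ) := by
      refine continuous_parametric_integral_of_continuous
        (f := fun v u => g (Fin.cons v u : Fin (m + 1) → ℝ)) ?_ isCompact_Icc
      exact hg.comp (cons_cont m)
    have e1 : (b - a) * G = ∫ _v in Icc a b, G := by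
      rw [setIntegral_const, Real.volume_real_Icc_of_le hab.le, smul_eq_mul]
    rw [e1, ← integral_sub (hc.continuousOn.integrableOn_compact isCompact_Icc)
      (continuous_const.continuousOn.integrableOn_compact isCompact_Icc)]
    have h5 := norm_setIntegral_le_of_norm_le_const (μ := volume) (s := Icc a b)
      (f := fun v => (∫ u in Icc x y, g (Fin.cons v u : Fin (m + 1) → ℝ)) - G) (C := ε / 4)
      isCompact_Icc.measure_lt_top (fun v hv => by
        have := hv0 v (hav0.trans hv.1)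
        rw [dist_eq_norm] at this
        exact this)
    rw [Real.norm_eq_abs, Real.volume_real_Icc_of_le hab.le] at h5
    exact h5
  have ev1 : ∀ᶠ T in l, |(Nk T (Fin.cons a x : Fin (m + 1) → ℝ) (Fin.cons b y) : ℝ) / XT T -
      ∫ v in Icc a b, ∫ u in Icc x y, g (Fin.cons v u : Fin (m + 1) → ℝ)| ≤ ε / 4 * (b - a) := by
    have := h3.eventually (Metric.closedBall_mem_nhds _ (mul_pos (by positivity : 0 < ε / 4)
      (sub_pos.2 hab)))
    filter_upwards [this] with T hT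
    rwa [Real.dist_eq] at hT
  have ev2 : ∀ᶠ T in l, A * Real.log A ≤ 1 * Real.log T := by
    simp only [one_mul]
    exact hl (Real.tendsto_log_atTop.eventually_ge_atTop _)
  have ev3 : ∀ᶠ T in l, (1 : ℝ) ≤ T := hl (eventually_ge_atTop 1)
  filter_upwards [ev1, ev2, ev3] with T k1 k2 k3
  have h7 := h1 A hAA0 T k3 k2 a b (by linarith) (by rw [hb]) hbA
  rw [Real.dist_eq, ← hG]
  have hw0 : 0 < b - a := by linarith
  obtain ⟨q, hq⟩ : ∃ q : ℝ, q = (Nk T x y : ℝ) / XT T := ⟨_, rfl⟩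
  obtain ⟨q1, hq1⟩ : ∃ q1 : ℝ, q1 = (Nk T (Fin.cons a x : Fin (m + 1) → ℝ) (Fin.cons b y) : ℝ) / XT T :=
    ⟨_, rfl⟩
  obtain ⟨I, hI⟩ : ∃ I : ℝ, I = ∫ v in Icc a b, ∫ u in Icc x y, g (Fin.cons v u : Fin (m + 1) → ℝ) :=
    ⟨_, rfl⟩
  have h8 : |q1 - (b - a) * q| ≤ ε / 4 * (b - a) := by
    rw [hq, hq1]
    exact h7
  rw [← hq]
  rw [← hq1, ← hI] at k1
  rw [← hI] at h4
  have h9 : |(b - a) * (q - G)| ≤ 3 / 4 * ε * (b - a) := by
    have e : (b - a) * (q - G) = -(q1 - (b - a) * q) + (q1 - I) + (I - (b - a) * G) := by ring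
    rw [e]
    calc _ ≤ |-(q1 - (b - a) * q)| + |q1 - I| + |I - (b - a) * G| := abs_add_three _ _ _
      _ ≤ 3 / 4 * ε * (b - a) := by rw [abs_neg]; linarith
  rw [abs_mul, abs_of_pos hw0] at h9
  have h10 : |q - G| ≤ 3 / 4 * ε := by
    have : (b - a) * |q - G| ≤ (b - a) * (3 / 4 * ε) := by linarith
    exact le_of_mul_le_mul_left this hw0
  linarith

/-- level zero -/
lemma Nk_zero (T : ℝ) (x y : Fin 0 → ℝ) : Nk T x y = NZ T := by
  classical
  rw [Nk_fib]
  have h1 : ∀ n ∈ Finset.Icc 1 (NZ T), (Fb T x y n).card = 1 := by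
    intro n _
    rw [Finset.card_eq_one]
    refine ⟨fun i => i.elim0, ?_⟩
    ext w
    rw [mem_Fb, Finset.mem_singleton]
    constructor
    · intro _
      funext i
      exact i.elim0
    · intro _
      exact ⟨fun i => i.elim0, fun i => i.elim0⟩
  rw [Finset.sum_congr rfl h1]
  simp

lemma LG_zero {l : Filter ℝ} [l.NeBot] (hl : l ≤ atTop) {g : (Fin 0 → ℝ) → ℝ} (h : LG l 0 g) :
    g Fin.elim0 = 1 := by
  have h1 := h Fin.elim0 Fin.elim0 (fun i => i.elim0)
  have h2 : Tendsto (fun T : ℝ => (Nk T (Fin.elim0 : Fin 0 → ℝ) Fin.elim0 : ℝ) / XT T) l (𝓝 1) := by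
    refine (NZ_lim.mono_left hl).congr fun T => ?_
    rw [Nk_zero]
    rfl
  have h3 := tendsto_nhds_unique h1 h2
  have h4 : (Icc (Fin.elim0 : Fin 0 → ℝ) Fin.elim0) = univ := by
    ext u
    simp only [mem_univ, iff_true]
    rw [Subsingleton.elim u Fin.elim0]
    simp
  rw [h4, setIntegral_univ] at h3
  have h5 : ∀ u : Fin 0 → ℝ, g u = g Fin.elim0 := fun u => by rw [Subsingleton.elim u Fin.elim0]
  simp_rw [h5] at h3
  rw [integral_const] at h3
  simpa [Measure.real, volume_pi] using h3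

end

end Pool.Agent.K4H58.DR
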