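import Pool.Agent.K4H58.DR.Asm
import Pool.Agent.K4H58.DR.Dsc
import Pool.Agent.K4H58.KL.Tup

/-! # From boxes to the Fejer kernel -/

set_option autoImplicit false

namespace Pool.Agent.K4H58.DR

open Filter Topology MeasureTheory Set
open SG (ord NZ)
open SP (RHs)
open Pool.Agent.R320.KL
open Pool.Agent.K4H58.KL (Wt mem_Wt uw TS Nk_TS TS_mono TS_sum NZ_lim)

noncomputable section

/-- `hh` is Lipschitz -/
lemma hh_lip (x y : ℝ) : |hh x - hh y| ≤ 2 * Real.pi * |x - y| := by
  have hpi := Real.pi_pos
  unfold hh H370.A2.RR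
  have hc : ∀ x : ℝ, Continuous fun α : ℝ => tent α * Real.cos (2 * Real.pi * α * x) := fun x =>
    tent_cont.mul (by fun_prop)
  rw [← intervalIntegral.integral_sub ((hc x).intervalIntegrable _ _) ((hc y).intervalIntegrable _ _)]
  have h1 : ∫ α in (-1 : ℝ)..1, tent α = 1 := by
    have h2 := tent_int (lam := 1) one_pos
    simp only [div_one] at h2
    rw [int_supp (a := 1) tent_sup] at h2
    exact h2
  calc |∫ α in (-1 : ℝ)..1, (tent α * Real.cos (2 * Real.pi * α * x) -
        tent α * Real.cos (2 * Real.pi * α * y))| ≤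
      ∫ α in (-1 : ℝ)..1, |tent α * Real.cos (2 * Real.pi * α * x) -
        tent α * Real.cos (2 * Real.pi * α * y)| :=
        intervalIntegral.abs_integral_le_integral_abs (by norm_num)
    _ ≤ ∫ α in (-1 : ℝ)..1, tent α * (2 * Real.pi * |x - y|) := by
        refine intervalIntegral.integral_mono_on (by norm_num)
          (((hc x).sub (hc y)).abs.intervalIntegrable _ _)
          ((tent_cont.mul continuous_const).intervalIntegrable _ _) fun α hα => ?_
        rw [← mul_sub, abs_mul, abs_of_nonneg (tent_nonneg α)]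
        refine mul_le_mul_of_nonneg_left ?_ (tent_nonneg α)
        refine (Real.abs_cos_sub_cos_le _ _).trans ?_
        have h3 : 2 * Real.pi * α * x - 2 * Real.pi * α * y = α * (2 * Real.pi * (x - y)) := by ring
        rw [h3, abs_mul, abs_mul, abs_of_pos (by positivity : 0 < 2 * Real.pi)]
        have h4 : |α| ≤ 1 := abs_le.2 hα
        exact mul_le_of_le_one_left (by positivity) h4
    _ = _ := by
        rw [intervalIntegral.integral_mul_const, h1, one_mul]

/-- the pair sum as a tuple sum -/
lemma Qf_TS {T lam : ℝ} : Qf (lam * Real.log T / (2 * Real.pi)) (Finset.Icc 1 (NZ T)) =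
    (NZ T : ℝ) + TS (m := 1) T (fun u => hh (lam * u 0)) := by
  classical
  have h1 : TS (m := 1) T (fun u => hh (lam * u 0)) =
      ∑ n ∈ Finset.Icc 1 (NZ T), ∑ l ∈ (Finset.Icc 1 (NZ T)).erase n,
        hh (lam * Real.log T / (2 * Real.pi) * (ord n - ord l)) := by
    unfold TS
    rw [Finset.sum_sigma']
    refine Finset.sum_bij' (fun w _ => (⟨w 0, w 1⟩ : Σ _ : ℕ, ℕ)) (fun z _ => ![z.1, z.2]) ?_ ?_ ?_ ?_ ?_
    · intro w hw
      rw [mem_Wt] at hw
      rw [Finset.mem_sigma, Finset.mem_erase]
      refine ⟨hw.1 0, ?_, hw.1 1⟩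
      intro h
      exact absurd (hw.2 h) (by decide)
    · rintro ⟨n, l⟩ hz
      rw [Finset.mem_sigma, Finset.mem_erase] at hz
      rw [mem_Wt]
      refine ⟨fun i => ?_, ?_⟩
      · fin_cases i
        · exact hz.1
        · exact hz.2.2
      · intro i j hij
        fin_cases i <;> fin_cases j
        · rfl
        · exact absurd hij.symm hz.2.1
        · exact absurd hij hz.2.1
        · rfl
    · intro w _
      funext i
      fin_cases i <;> rfl
    · rintro ⟨n, l⟩ _
      rfl
    · intro w _
      show hh (lam * uw T w 0) = _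
      have h2 : uw T w 0 = (ord (w 1) - ord (w 0)) * (Real.log T / (2 * Real.pi)) := rfl
      rw [h2, ← hh_even]
      congr 1
      ring
  rw [h1]
  unfold Qf
  have h2 : ∀ n ∈ Finset.Icc 1 (NZ T), ∑ l ∈ Finset.Icc 1 (NZ T),
      hh (lam * Real.log T / (2 * Real.pi) * (ord n - ord l)) = 1 +
      ∑ l ∈ (Finset.Icc 1 (NZ T)).erase n, hh (lam * Real.log T / (2 * Real.pi) * (ord n - ord l)) := by
    intro n hn
    rw [← Finset.add_sum_erase _ _ hn, sub_self, mul_zero, hh_zero]
  rw [Finset.sum_congr rfl h2, Finset.sum_add_distrib]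
  simp

/-- half-open intervals -/
lemma TS_Ico {l : Filter ℝ} {g : (Fin 1 → ℝ) → ℝ} (h : LG l 1 g) {a b : ℝ} (hab : a ≤ b) :
    Tendsto (fun T : ℝ => TS (m := 1) T (fun u => (Ico a b).indicator (1 : ℝ → ℝ) (u 0)) / XT T) l
      (𝓝 (∫ u in Icc (fun _ : Fin 1 => a) (fun _ => b), g u)) := by
  have h1 := h (fun _ => a) (fun _ => b) (fun _ => hab)
  have h2 := h (fun _ => b) (fun _ => b) (fun _ => le_rfl)
  have h3 : ∫ u in Icc (fun _ : Fin 1 => b) (fun _ => b), g u = 0 := by
    rw [Icc_self, setIntegral_measure_zero]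
    simp
  rw [h3] at h2
  have h4 := h1.sub h2
  rw [sub_zero] at h4
  refine h4.congr fun T => ?_
  rw [← sub_div, Nk_TS, Nk_TS]
  congr 1
  unfold TS
  rw [← Finset.sum_sub_distrib]
  refine Finset.sum_congr rfl fun w _ => ?_
  obtain ⟨z, hz⟩ : ∃ z, z = uw T w := ⟨_, rfl⟩
  rw [← hz]
  have k1 : z ∈ Icc (fun _ : Fin 1 => a) (fun _ => b) ↔ a ≤ z 0 ∧ z 0 ≤ b := by
    rw [mem_Icc, Pi.le_def, Pi.le_def]
    constructor
    · exact fun h => ⟨h.1 0, h.2 0⟩
    · intro h
      refine ⟨fun i => ?_, fun i => ?_⟩ <;> (rw [Subsingleton.elim i 0])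
      · exact h.1
      · exact h.2
  have k2 : z ∈ Icc (fun _ : Fin 1 => b) (fun _ => b) ↔ z 0 = b := by
    rw [mem_Icc, Pi.le_def, Pi.le_def]
    constructor
    · exact fun h => le_antisymm (h.2 0) (h.1 0)
    · intro h
      refine ⟨fun i => ?_, fun i => ?_⟩ <;> (rw [Subsingleton.elim i 0])
      · exact h.ge
      · exact h.le
  show (Icc (fun _ : Fin 1 => a) (fun _ => b)).indicator (1 : (Fin 1 → ℝ) → ℝ) z -
    (Icc (fun _ : Fin 1 => b) (fun _ => b)).indicator (1 : (Fin 1 → ℝ) → ℝ) z =
    (Ico a b).indicator (1 : ℝ → ℝ) (z 0)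
  by_cases c1 : a ≤ z 0 ∧ z 0 ≤ b
  · rw [indicator_of_mem (k1.2 c1)]
    by_cases c2 : z 0 = b
    · rw [indicator_of_mem (k2.2 c2), indicator_of_notMem]
      · simp
      · rw [c2]
        simp
    · rw [indicator_of_notMem (fun h => c2 (k2.1 h)), indicator_of_mem (show z 0 ∈ Ico a b from
        ⟨c1.1, lt_of_le_of_ne c1.2 c2⟩)]
      simp
  · rw [indicator_of_notMem (fun h => c1 (k1.1 h)), indicator_of_notMem, indicator_of_notMem]
    · simp
    · intro h
      exact c1 ⟨h.1, h.2.le⟩
    · intro h
      have := k2.1 h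
      exact c1 ⟨by rw [this]; exact hab, this.le⟩

lemma int_fin1 (g : (Fin 1 → ℝ) → ℝ) (a b : ℝ) :
    ∫ u in Icc (fun _ : Fin 1 => a) (fun _ => b), g u = ∫ v in Icc a b, g (fun _ => v) := by
  have h1 := (volume_preserving_funUnique (Fin 1) ℝ).symm
  have h2 := h1.setIntegral_preimage_emb (MeasurableEquiv.measurableEmbedding _) g
    (Icc (fun _ : Fin 1 => a) (fun _ => b))
  refine h2.symm.trans ?_
  have h3 : (MeasurableEquiv.funUnique (Fin 1) ℝ).symm ⁻¹' (Icc (fun _ : Fin 1 => a) (fun _ => b)) =
      Icc a b := by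
    ext v
    simp only [mem_preimage, mem_Icc, Pi.le_def]
    constructor
    · exact fun h => ⟨h.1 0, h.2 0⟩
    · exact fun h => ⟨fun _ => h.1, fun _ => h.2⟩
  rw [h3]
  rfl

/-- at most one of the intervals contains the point -/
lemma sum_one (a c : ℕ → ℝ) (ha : Monotone a) {u B : ℝ} (hB : 0 ≤ B) (N : ℕ)
    (h : ∀ j < N, u ∈ Ico (a j) (a (j + 1)) → c j ≤ B) :
    ∑ j ∈ Finset.range N, c j * (Ico (a j) (a (j + 1))).indicator (1 : ℝ → ℝ) u ≤ B := by
  induction N with
  | zero => simpa using hB
  | succ N ih =>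
    rw [Finset.sum_range_succ]
    by_cases hu : u ∈ Ico (a N) (a (N + 1))
    · rw [Finset.sum_eq_zero, zero_add, indicator_of_mem hu]
      · have := h N (Nat.lt_succ_self N) hu
        simpa using this
      · intro j hj
        rw [indicator_of_notMem, mul_zero]
        intro h2
        have h3 : a (j + 1) ≤ a N := ha (Finset.mem_range.1 hj)
        linarith [h2.2, hu.1]
    · rw [indicator_of_notMem hu, mul_zero, add_zero]
      exact ih fun j hj => h j (by omega)

/-- **the inequality for the density** -/
theorem box_low {l : Filter ℝ} [l.NeBot] (hl : l ≤ atTop) (RH : RiemannHypothesis) (hRH : RHs)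
    {g : ℝ → ℝ} (hg : Continuous g) {M : ℝ} (hM : ∀ u, |g u| ≤ M)
    (h : LG l 1 fun u => g (u 0)) {lam : ℝ} (hl0 : 0 < lam) (hl1 : lam < 1) :
    1 + ∫ u, hh (lam * u) * g u ≤ 1 / lam + lam / 3 := by
  have hM0 : 0 ≤ M := (abs_nonneg _).trans (hM 0)
  have hpi := Real.pi_pos
  have hgi : Integrable fun u => hh (lam * u) * g u := by
    refine ((hh_sc_int hl0).mul_const M).mono' ?_ (Eventually.of_forall fun u => ?_)
    · exact ((hh_cont.comp (by fun_prop)).mul hg).aestronglyMeasurable
    · rw [norm_mul, Real.norm_of_nonneg (hh_nonneg _)]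
      exact mul_le_mul_of_nonneg_left (hM u) (hh_nonneg _)
  have hhc : Continuous fun u => hh (lam * u) * g u := (hh_cont.comp (by fun_prop)).mul hg
  -- a bounded interval
  have main : ∀ R : ℕ, 1 + ∫ u in (-(R : ℝ))..R, hh (lam * u) * g u ≤ 1 / lam + lam / 3 := by
    intro R
    -- the mesh
    have mesh : ∀ q : ℕ, 0 < q → 1 + (∫ u in (-(R : ℝ))..R, hh (lam * u) * g u) -
        8 * Real.pi * M * R / q ≤ 1 / lam + lam / 3 := by
      intro q hq
      have hq' : (0 : ℝ) < q := by exact_mod_cast hq
      obtain ⟨a, ha⟩ : ∃ a : ℕ → ℝ, a = fun j : ℕ => -(R : ℝ) + (j : ℝ) / q := ⟨_, rfl⟩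
      obtain ⟨c, hc⟩ : ∃ c : ℕ → ℝ, c = fun j => hh (lam * a j) - 2 * Real.pi / q := ⟨_, rfl⟩
      obtain ⟨N, hN⟩ : ∃ N, N = 2 * R * q := ⟨_, rfl⟩
      have hstep : ∀ j, a (j + 1) = a j + 1 / q := by
        intro j
        rw [ha]
        push_cast
        ring
      have hmono : Monotone a := by
        refine monotone_nat_of_le_succ fun j => ?_
        rw [hstep]
        have : 0 < 1 / (q : ℝ) := by positivity
        linarith
      have ha0 : a 0 = -(R : ℝ) := by rw [ha]; simp
      have haN : a N = R := by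
        rw [ha, hN]
        push_cast
        field_simp
        ring
      have hnear : ∀ j, ∀ u ∈ Icc (a j) (a (j + 1)), |hh (lam * u) - hh (lam * a j)| ≤
          2 * Real.pi / q := by
        intro j u hu
        rw [hstep] at hu
        refine (hh_lip _ _).trans ?_
        rw [← mul_sub, abs_mul, abs_of_pos hl0, abs_of_nonneg (by linarith [hu.1])]
        have h1 : u - a j ≤ 1 / q := by linarith [hu.2]
        have h2 : 0 ≤ u - a j := by linarith [hu.1]
        calc 2 * Real.pi * (lam * (u - a j)) ≤ 2 * Real.pi * (1 * (1 / q)) := by gcongr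
          _ = _ := by ring
      -- the tuple sums
      have hlimj : ∀ j, Tendsto (fun T : ℝ => TS (m := 1) T
          (fun u => (Ico (a j) (a (j + 1))).indicator (1 : ℝ → ℝ) (u 0)) / XT T) l
          (𝓝 (∫ u in (a j)..(a (j + 1)), g u)) := by
        intro j
        have h1 := TS_Ico h (hmono (Nat.le_succ j))
        rw [int_fin1, integral_Icc_eq_integral_Ioc,
          ← intervalIntegral.integral_of_le (hmono (Nat.le_succ j))] at h1
        exact h1
      have hlimS : Tendsto (fun T : ℝ => ∑ j ∈ Finset.range N, c j * (TS (m := 1) T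
          (fun u => (Ico (a j) (a (j + 1))).indicator (1 : ℝ → ℝ) (u 0)) / XT T)) l
          (𝓝 (∑ j ∈ Finset.range N, c j * ∫ u in (a j)..(a (j + 1)), g u)) :=
        tendsto_finsetSum _ fun j _ => (hlimj j).const_mul _
      have hNl : Tendsto (fun T : ℝ => (NZ T : ℝ) / XT T) l (𝓝 1) := NZ_lim.mono_left hl
      have hle : 1 + ∑ j ∈ Finset.range N, c j * ∫ u in (a j)..(a (j + 1)), g u ≤ 1 / lam + lam / 3 := by
        refine le_of_forall_pos_le_add fun ε hε => ?_
        refine le_of_tendsto (hNl.add hlimS) ?_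
        filter_upwards [hl (upper RH hRH hl0 hl1 hε), hl (eventually_gt_atTop (1 : ℝ))] with T hT hT1
        have hX : 0 < XT T := by
          unfold XT
          have := Real.log_pos hT1
          positivity
        rw [Qf_TS] at hT
        have h1 : ∑ j ∈ Finset.range N, c j * TS (m := 1) T
            (fun u => (Ico (a j) (a (j + 1))).indicator (1 : ℝ → ℝ) (u 0)) ≤
            TS (m := 1) T (fun u => hh (lam * u 0)) := by
          have h2 : ∑ j ∈ Finset.range N, c j * TS (m := 1) T
            (fun u => (Ico (a j) (a (j + 1))).indicator (1 : ℝ → ℝ) (u 0)) =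
            TS (m := 1) T (fun u => ∑ j ∈ Finset.range N,
              c j * (Ico (a j) (a (j + 1))).indicator (1 : ℝ → ℝ) (u 0)) := by
            rw [TS_sum]
            refine Finset.sum_congr rfl fun j _ => ?_
            unfold TS
            rw [Finset.mul_sum]
          rw [h2]
          refine TS_mono fun u => ?_
          refine sum_one a c hmono (hh_nonneg _) N fun j _ hu => ?_
          have h3 := (abs_le.1 (hnear j (u 0) ⟨hu.1, hu.2.le⟩)).1
          rw [hc]
          simp only
          linarith
        have h2 : (NZ T : ℝ) / XT T + ∑ j ∈ Finset.range N, c j * (TS (m := 1) T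
          (fun u => (Ico (a j) (a (j + 1))).indicator (1 : ℝ → ℝ) (u 0)) / XT T) =
          ((NZ T : ℝ) + ∑ j ∈ Finset.range N, c j * TS (m := 1) T
            (fun u => (Ico (a j) (a (j + 1))).indicator (1 : ℝ → ℝ) (u 0))) / XT T := by
          rw [add_div, Finset.sum_div]
          congr 1
          refine Finset.sum_congr rfl fun j _ => ?_
          rw [mul_div_assoc]
        rw [h2, div_le_iff₀ hX]
        calc _ ≤ (NZ T : ℝ) + TS (m := 1) T (fun u => hh (lam * u 0)) := by linarith
          _ ≤ _ := hT
      -- comparison of the integrals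
      have hcmp : (∫ u in (-(R : ℝ))..R, hh (lam * u) * g u) - 8 * Real.pi * M * R / q ≤
          ∑ j ∈ Finset.range N, c j * ∫ u in (a j)..(a (j + 1)), g u := by
        have h1 : ∫ u in (-(R : ℝ))..R, hh (lam * u) * g u =
            ∑ j ∈ Finset.range N, ∫ u in (a j)..(a (j + 1)), hh (lam * u) * g u := by
          rw [intervalIntegral.sum_integral_adjacent_intervals fun j _ => hhc.intervalIntegrable _ _,
            ha0, haN]
        rw [h1]
        have h2 : ∀ j ∈ Finset.range N, (∫ u in (a j)..(a (j + 1)), hh (lam * u) * g u) -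
            4 * Real.pi * M / q * (1 / q) ≤ c j * ∫ u in (a j)..(a (j + 1)), g u := by
          intro j _
          have hlej := hmono (Nat.le_succ j)
          rw [← intervalIntegral.integral_const_mul]
          have h3 : (∫ u in (a j)..(a (j + 1)), hh (lam * u) * g u) -
              ∫ u in (a j)..(a (j + 1)), c j * g u =
              ∫ u in (a j)..(a (j + 1)), (hh (lam * u) - c j) * g u := by
            have i1 : IntervalIntegrable (fun u => hh (lam * u) * g u) volume (a j) (a (j + 1)) :=
              hhc.intervalIntegrable _ _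
            have i2 : IntervalIntegrable (fun u => c j * g u) volume (a j) (a (j + 1)) :=
              (continuous_const.mul hg).intervalIntegrable _ _
            rw [← intervalIntegral.integral_sub i1 i2]
            refine intervalIntegral.integral_congr fun u _ => ?_
            show hh (lam * u) * g u - c j * g u = (hh (lam * u) - c j) * g u
            ring
          have h4 : ∫ u in (a j)..(a (j + 1)), (hh (lam * u) - c j) * g u ≤
              ∫ _u in (a j)..(a (j + 1)), 4 * Real.pi * M / q := by
            refine intervalIntegral.integral_mono_on hlej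
              ((((hh_cont.comp (by fun_prop)).sub continuous_const).mul hg).intervalIntegrable _ _)
              intervalIntegrable_const fun u hu => ?_
            have h5 := abs_le.1 (hnear j u hu)
            have h6 : |hh (lam * u) - c j| ≤ 4 * Real.pi / q := by
              rw [hc, abs_le]
              simp only
              have h7 : (4 : ℝ) * Real.pi / q = 2 * Real.pi / q + 2 * Real.pi / q := by ring
              have h8 : 0 < 2 * Real.pi / q := by positivity
              rw [h7]
              constructor <;> linarith [h5.1, h5.2]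
            calc (hh (lam * u) - c j) * g u ≤ |(hh (lam * u) - c j) * g u| := le_abs_self _
              _ = |hh (lam * u) - c j| * |g u| := abs_mul _ _
              _ ≤ 4 * Real.pi / q * M := by
                  have := hM u
                  gcongr
              _ = _ := by ring
          rw [intervalIntegral.integral_const, smul_eq_mul, hstep, add_sub_cancel_left] at h4
          rw [hstep] at h3 ⊢
          linarith
        have h3 := Finset.sum_le_sum h2
        rw [Finset.sum_sub_distrib, Finset.sum_const, Finset.card_range, nsmul_eq_mul] at h3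
        have h4 : (N : ℝ) * (4 * Real.pi * M / q * (1 / q)) = 8 * Real.pi * M * R / q := by
          rw [hN]
          push_cast
          field_simp
          ring
        rw [h4] at h3
        exact h3
      linarith
    have hlim : Tendsto (fun q : ℕ => 1 + (∫ u in (-(R : ℝ))..R, hh (lam * u) * g u) -
        8 * Real.pi * M * R / q) atTop (𝓝 (1 + (∫ u in (-(R : ℝ))..R, hh (lam * u) * g u) - 0)) :=
      tendsto_const_nhds.sub (tendsto_const_div_atTop_nhds_zero_nat _)
    rw [sub_zero] at hlim
    exact le_of_tendsto hlim ((eventually_gt_atTop 0).mono fun q hq => mesh q hq)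
  have hlim : Tendsto (fun R : ℕ => 1 + ∫ u in (-(R : ℝ))..R, hh (lam * u) * g u) atTop
      (𝓝 (1 + ∫ u, hh (lam * u) * g u)) := by
    refine tendsto_const_nhds.add ?_
    exact intervalIntegral_tendsto_integral hgi
      (tendsto_neg_atTop_atBot.comp tendsto_natCast_atTop_atTop) tendsto_natCast_atTop_atTop
  exact le_of_tendsto' hlim main

end

end Pool.Agent.K4H58.DR
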