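import Mathlib

/-! # Spectral functions of determinantal processes: rigidity -/

set_option autoImplicit false

namespace Pool.Agent.K4H58.DR

open Filter Topology MeasureTheory Set

noncomputable section

/-- the tent function -/
def tent (x : ℝ) : ℝ := max 0 (1 - |x|)

lemma tent_nonneg (x : ℝ) : 0 ≤ tent x := le_max_left _ _

lemma tent_le (x : ℝ) : tent x ≤ 1 := max_le zero_le_one (by linarith [abs_nonneg x])

lemma tent_cont : Continuous tent := by unfold tent; fun_prop

lemma tent_even (x : ℝ) : tent (-x) = tent x := by unfold tent; rw [abs_neg]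

lemma tent_zero {x : ℝ} (h : 1 ≤ |x|) : tent x = 0 := max_eq_left (by linarith)

lemma tent_cpt : HasCompactSupport tent := by
  apply HasCompactSupport.intro (isCompact_Icc (a := (-1 : ℝ)) (b := 1))
  intro x hx
  apply tent_zero
  by_contra h
  push Not at h
  obtain ⟨h3, h4⟩ := abs_lt.1 h
  exact hx ⟨h3.le, h4.le⟩

lemma tent_integrable : Integrable tent := tent_cont.integrable_of_hasCompactSupport tent_cpt

lemma tent_sc {lam : ℝ} (hl : 0 < lam) : Integrable fun z => tent (z / lam) := by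
  have := tent_integrable.comp_div hl.ne'
  exact this

lemma int_supp {g : ℝ → ℝ} {a : ℝ} (hg : ∀ x, a ≤ |x| → g x = 0) :
    ∫ x, g x = ∫ x in (-a)..a, g x := by
  symm
  apply intervalIntegral.integral_eq_integral_of_support_subset
  intro x hx
  by_contra h
  apply hx
  apply hg
  by_contra h2
  push Not at h2
  obtain ⟨h3, h4⟩ := abs_lt.1 h2
  exact h ⟨h3, h4.le⟩

lemma int_even {g : ℝ → ℝ} (hg : Continuous g) (he : ∀ x, g (-x) = g x) (a : ℝ) :
    ∫ x in (-a)..a, g x = 2 * ∫ x in (0 : ℝ)..a, g x := by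
  rw [← intervalIntegral.integral_add_adjacent_intervals (b := 0) (hg.intervalIntegrable _ _)
    (hg.intervalIntegrable _ _)]
  have h5 : ∫ x in (-a)..0, g x = ∫ x in (0 : ℝ)..a, g x := by
    have := intervalIntegral.integral_comp_neg (a := (0 : ℝ)) (b := a) g
    rw [neg_zero] at this
    rw [← this]
    exact intervalIntegral.integral_congr fun x _ => he x
  rw [h5]
  ring

lemma tent_pos_eq {lam x : ℝ} (hl : 0 < lam) (h0 : 0 ≤ x) (h1 : x ≤ lam) :
    tent (x / lam) = 1 - x / lam := by
  unfold tent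
  rw [abs_of_nonneg (by positivity), max_eq_right]
  have : x / lam ≤ 1 := by rw [div_le_one hl]; exact h1
  linarith

lemma tent_sc_zero {lam x : ℝ} (hl : 0 < lam) (h : lam ≤ |x|) : tent (x / lam) = 0 := by
  apply tent_zero
  rw [abs_div, abs_of_pos hl, le_div_iff₀ hl]
  linarith

lemma tent_int {lam : ℝ} (hl : 0 < lam) : ∫ z, tent (z / lam) = lam := by
  have hc : Continuous fun z => tent (z / lam) := tent_cont.comp (by fun_prop)
  rw [int_supp (fun x hx => tent_sc_zero hl hx), int_even hc (fun x => by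
    rw [neg_div, tent_even])]
  have h1 : ∫ x in (0 : ℝ)..lam, tent (x / lam) = ∫ x in (0 : ℝ)..lam, (1 - x / lam) := by
    refine intervalIntegral.integral_congr fun x hx => ?_
    rw [Set.uIcc_of_le hl.le] at hx
    exact tent_pos_eq hl hx.1 hx.2
  rw [h1, intervalIntegral.integral_sub (by simp) (by
    exact (Continuous.intervalIntegrable (by fun_prop) _ _)), intervalIntegral.integral_div]
  simp
  field_simp
  ring

lemma tent_abs {lam : ℝ} (hl : 0 < lam) : ∫ z, tent (z / lam) * |z| = lam ^ 2 / 3 := by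
  have hc : Continuous fun z => tent (z / lam) * |z| := (tent_cont.comp (by fun_prop)).mul (by fun_prop)
  rw [int_supp (fun x hx => by rw [tent_sc_zero hl hx, zero_mul]), int_even hc (fun x => by
    rw [neg_div, tent_even, abs_neg])]
  have h1 : ∫ x in (0 : ℝ)..lam, tent (x / lam) * |x| = ∫ x in (0 : ℝ)..lam, (x - x ^ 2 / lam) := by
    refine intervalIntegral.integral_congr fun x hx => ?_
    rw [Set.uIcc_of_le hl.le] at hx
    show tent (x / lam) * |x| = _
    rw [tent_pos_eq hl hx.1 hx.2, abs_of_nonneg hx.1]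
    field_simp
  rw [h1, intervalIntegral.integral_sub (Continuous.intervalIntegrable (by fun_prop) _ _)
    (Continuous.intervalIntegrable (by fun_prop) _ _), intervalIntegral.integral_div]
  simp
  field_simp
  ring

/-- a spectral function -/
structure Sp (f : ℝ → ℝ) : Prop where
  meas : Measurable f
  nn : ∀ x, 0 ≤ f x
  le : ∀ x, f x ≤ 1
  int : Integrable f

/-- the double integral -/
def AA (f : ℝ → ℝ) (lam : ℝ) : ℝ := ∫ x, ∫ y, f x * f y * tent ((x - y) / lam)

/-- the autocorrelation -/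
def V (f : ℝ → ℝ) (α : ℝ) : ℝ := ∫ x, f x * f (x + α)

/-- the variation -/
def PV (f : ℝ → ℝ) (α : ℝ) : ℝ := ∫ x, (f (x + α) - f x) ^ 2

lemma Sp.sq_int {f : ℝ → ℝ} (hf : Sp f) : Integrable fun x => f x ^ 2 := by
  refine hf.int.mono' (hf.meas.pow_const 2).aestronglyMeasurable (Eventually.of_forall fun x => ?_)
  rw [Real.norm_of_nonneg (sq_nonneg _)]
  have h1 := hf.nn x
  have h2 := hf.le x
  nlinarith

lemma Sp.shift {f : ℝ → ℝ} (hf : Sp f) (α : ℝ) : Sp fun x => f (x + α) :=
  ⟨hf.meas.comp (measurable_id.add_const α), fun _ => hf.nn _, fun _ => hf.le _, hf.int.comp_add_right α⟩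

lemma Sp.mul_int {f : ℝ → ℝ} (hf : Sp f) (α : ℝ) : Integrable fun x => f x * f (x + α) := by
  refine hf.int.mono' (hf.meas.mul (hf.shift α).meas).aestronglyMeasurable
    (Eventually.of_forall fun x => ?_)
  rw [Real.norm_of_nonneg (mul_nonneg (hf.nn _) (hf.nn _))]
  exact mul_le_of_le_one_right (hf.nn _) (hf.le _)

lemma PV_eq {f : ℝ → ℝ} (hf : Sp f) (α : ℝ) : PV f α = 2 * (∫ x, f x ^ 2) - 2 * V f α := by
  unfold PV V
  have h1 : ∀ x, (f (x + α) - f x) ^ 2 = (f (x + α) ^ 2 + f x ^ 2) - 2 * (f x * f (x + α)) :=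
    fun x => by ring
  simp_rw [h1]
  have a1 : Integrable fun x => f (x + α) ^ 2 := (hf.shift α).sq_int
  have a2 : Integrable fun x => f (x + α) ^ 2 + f x ^ 2 := a1.add hf.sq_int
  rw [integral_sub a2 ((hf.mul_int α).const_mul 2),
    integral_add a1 hf.sq_int, integral_const_mul,
    integral_add_right_eq_self (fun x => f x ^ 2) α]
  ring

lemma PV_nonneg (f : ℝ → ℝ) (α : ℝ) : 0 ≤ PV f α := integral_nonneg fun _ => sq_nonneg _

lemma V_even {f : ℝ → ℝ} (α : ℝ) : V f (-α) = V f α := by
  unfold V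
  rw [← integral_add_right_eq_self (fun x => f x * f (x + -α)) α]
  refine integral_congr_ae (Eventually.of_forall fun x => ?_)
  show f (x + α) * f (x + α + -α) = f x * f (x + α)
  rw [add_neg_cancel_right, mul_comm]

lemma PV_even {f : ℝ → ℝ} (hf : Sp f) (α : ℝ) : PV f (-α) = PV f α := by
  rw [PV_eq hf, PV_eq hf, V_even]

lemma prod_int {f : ℝ → ℝ} (hf : Sp f) {lam : ℝ} (hl : 0 < lam) :
    Integrable (fun z : ℝ × ℝ => f z.1 * f (z.1 + z.2) * tent (z.2 / lam)) (volume.prod volume) := by
  refine (hf.int.mul_prod (tent_sc hl)).mono' ?_ (Eventually.of_forall fun z => ?_)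
  · refine Measurable.aestronglyMeasurable ?_
    refine ((hf.meas.comp measurable_fst).mul (hf.meas.comp (measurable_fst.add measurable_snd))).mul ?_
    exact tent_cont.measurable.comp (measurable_snd.div_const _)
  · have h1 := hf.nn z.1
    have h2 := hf.nn (z.1 + z.2)
    have h3 := hf.le (z.1 + z.2)
    have h4 := tent_nonneg (z.2 / lam)
    rw [Real.norm_of_nonneg (by positivity)]
    calc f z.1 * f (z.1 + z.2) * tent (z.2 / lam) ≤ f z.1 * 1 * tent (z.2 / lam) := by gcongr
      _ = _ := by rw [mul_one]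

lemma AA_eq {f : ℝ → ℝ} (hf : Sp f) {lam : ℝ} (hl : 0 < lam) :
    AA f lam = ∫ α, tent (α / lam) * V f α := by
  unfold AA V
  have h1 : ∀ x, ∫ y, f x * f y * tent ((x - y) / lam) = ∫ α, f x * f (x + α) * tent (α / lam) := by
    intro x
    rw [← integral_add_left_eq_self (fun y => f x * f y * tent ((x - y) / lam)) x]
    refine integral_congr_ae (Eventually.of_forall fun α => ?_)
    show f x * f (x + α) * tent ((x - (x + α)) / lam) = _
    rw [show (x - (x + α)) / lam = -(α / lam) by ring, tent_even]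
  simp_rw [h1]
  rw [integral_integral_swap (prod_int hf hl)]
  refine integral_congr_ae (Eventually.of_forall fun α => ?_)
  show ∫ x, f x * f (x + α) * tent (α / lam) = tent (α / lam) * ∫ x, f x * f (x + α)
  rw [integral_mul_const, mul_comm]

lemma V_tent_int {f : ℝ → ℝ} (hf : Sp f) {lam : ℝ} (hl : 0 < lam) :
    Integrable fun α => tent (α / lam) * V f α := by
  have h1 := (prod_int hf hl).swap.integral_prod_left
  refine h1.congr (Eventually.of_forall fun α => ?_)
  show ∫ x, f x * f (x + α) * tent (α / lam) = _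
  unfold V
  rw [integral_mul_const, mul_comm]

lemma PV_tent_int {f : ℝ → ℝ} (hf : Sp f) {lam : ℝ} (hl : 0 < lam) :
    Integrable fun α => tent (α / lam) * PV f α := by
  have h1 := ((tent_sc hl).mul_const (2 * ∫ x, f x ^ 2)).sub ((V_tent_int hf hl).const_mul 2)
  refine h1.congr (Eventually.of_forall fun α => ?_)
  show tent (α / lam) * (2 * ∫ x, f x ^ 2) - 2 * (tent (α / lam) * V f α) = tent (α / lam) * PV f α
  rw [PV_eq hf]
  ring

lemma PV_tent {f : ℝ → ℝ} (hf : Sp f) {lam : ℝ} (hl : 0 < lam) :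
    ∫ α, tent (α / lam) * PV f α = 2 * lam * (∫ x, f x ^ 2) - 2 * AA f lam := by
  have h1 : ∀ α, tent (α / lam) * PV f α =
      tent (α / lam) * (2 * ∫ x, f x ^ 2) - 2 * (tent (α / lam) * V f α) := fun α => by
    rw [PV_eq hf]; ring
  simp_rw [h1]
  rw [integral_sub ((tent_sc hl).mul_const _) ((V_tent_int hf hl).const_mul 2), integral_mul_const,
    integral_const_mul, tent_int hl, AA_eq hf hl]
  ring

lemma AA_le {f : ℝ → ℝ} (hf : Sp f) {lam : ℝ} (hl : 0 < lam) : AA f lam ≤ lam * ∫ x, f x ^ 2 := by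
  have h1 : 0 ≤ ∫ α, tent (α / lam) * PV f α :=
    integral_nonneg fun α => mul_nonneg (tent_nonneg _) (PV_nonneg _ _)
  rw [PV_tent hf hl] at h1
  linarith

/-- the primitive of the difference -/
def G (f : ℝ → ℝ) (α x : ℝ) : ℝ := ∫ s in Iic x, (f (s + α) - f s)

lemma G_eq {f : ℝ → ℝ} (hf : Sp f) (α x : ℝ) : G f α x = ∫ s in x..(x + α), f s := by
  unfold G
  rw [integral_sub (hf.shift α).int.integrableOn hf.int.integrableOn]
  have h1 : ∫ s in Iic x, f (s + α) = ∫ s in Iic (x + α), f s := by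
    have h2 := (measurePreserving_add_right volume α).setIntegral_preimage_emb
      (MeasurableEquiv.addRight α).measurableEmbedding f (Iic (x + α))
    have h3 : (fun s : ℝ => s + α) ⁻¹' Iic (x + α) = Iic x := by
      ext s
      simp
    rw [h3] at h2
    exact h2
  rw [h1, intervalIntegral.integral_Iic_sub_Iic hf.int.integrableOn hf.int.integrableOn]

lemma abs_int {f : ℝ → ℝ} (h01 : ∀ᵐ x, f x = 0 ∨ f x = 1) (α : ℝ) :
    ∫ s, |f (s + α) - f s| = PV f α := by
  unfold PV
  have h2 : ∀ᵐ x, f (x + α) = 0 ∨ f (x + α) = 1 :=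
    (measurePreserving_add_right volume α).quasiMeasurePreserving.ae h01
  refine integral_congr_ae ?_
  filter_upwards [h01, h2] with x h3 h4
  rcases h3 with h3 | h3 <;> rcases h4 with h4 | h4 <;> rw [h3, h4] <;> norm_num

lemma dif_int {f : ℝ → ℝ} (hf : Sp f) (α : ℝ) : Integrable fun s => f (s + α) - f s :=
  (hf.shift α).int.sub hf.int

lemma G_step {f : ℝ → ℝ} (hf : Sp f) (α : ℝ) {a b : ℝ} (hab : a ≤ b) :
    |G f α b - G f α a| ≤ (∫ s in Iic b, |f (s + α) - f s|) - ∫ s in Iic a, |f (s + α) - f s| := by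
  unfold G
  rw [intervalIntegral.integral_Iic_sub_Iic (dif_int hf α).integrableOn (dif_int hf α).integrableOn,
    intervalIntegral.integral_Iic_sub_Iic (dif_int hf α).abs.integrableOn (dif_int hf α).abs.integrableOn]
  exact intervalIntegral.abs_integral_le_integral_abs hab

lemma G_left {f : ℝ → ℝ} (α a : ℝ) :
    |G f α a| ≤ ∫ s in Iic a, |f (s + α) - f s| := abs_integral_le_integral_abs

lemma G_right {f : ℝ → ℝ} (hf : Sp f) (α a : ℝ) :
    |G f α a| ≤ (∫ s, |f (s + α) - f s|) - ∫ s in Iic a, |f (s + α) - f s| := by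
  have h1 := intervalIntegral.integral_Iic_add_Ioi (b := a) (dif_int hf α).integrableOn
    (dif_int hf α).integrableOn
  have h2 := intervalIntegral.integral_Iic_add_Ioi (b := a) (dif_int hf α).abs.integrableOn
    (dif_int hf α).abs.integrableOn
  have h3 : ∫ s, (f (s + α) - f s) = 0 := by
    rw [integral_sub (hf.shift α).int hf.int, integral_add_right_eq_self, sub_self]
  rw [h3] at h1
  have h4 : G f α a = -∫ s in Ioi a, (f (s + α) - f s) := by
    unfold G
    linarith
  have h5 : |∫ s in Ioi a, (f (s + α) - f s)| ≤ ∫ s in Ioi a, |f (s + α) - f s| :=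
    abs_integral_le_integral_abs
  rw [h4, abs_neg]
  linarith

lemma tv1 {f : ℝ → ℝ} (hf : Sp f) (h01 : ∀ᵐ x, f x = 0 ∨ f x = 1) (α a : ℝ) :
    2 * G f α a ≤ PV f α := by
  rw [← abs_int h01]
  have h1 := G_left (f := f) α a
  have h2 := G_right hf α a
  have h3 := le_abs_self (G f α a)
  linarith

lemma tv3 {f : ℝ → ℝ} (hf : Sp f) (h01 : ∀ᵐ x, f x = 0 ∨ f x = 1) (α : ℝ) {a b c : ℝ} (hab : a ≤ b)
    (hbc : b ≤ c) : 2 * G f α a - 2 * G f α b + 2 * G f α c ≤ PV f α := by
  rw [← abs_int h01]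
  have h1 := (le_abs_self _).trans (G_left (f := f) α a)
  have h2 := (le_abs_self _).trans (G_right hf α c)
  have h3 := (neg_abs_le _).trans' (neg_le_neg (G_step hf α hab))
  have h4 := (le_abs_self _).trans (G_step hf α hbc)
  linarith

/-- Lebesgue points -/
lemma leb {f : ℝ → ℝ} (hf : Sp f) : ∀ᵐ x, Tendsto (fun α : ℝ => G f α x / α) (𝓝[>] 0) (𝓝 (f x)) := by
  filter_upwards [LocallyIntegrable.ae_hasDerivAt_integral hf.int.locallyIntegrable] with x hx
  have h1 := hx 0
  rw [hasDerivAt_iff_tendsto_slope] at h1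
  have h2 : Tendsto (fun α : ℝ => x + α) (𝓝[>] 0) (𝓝[≠] x) := by
    apply tendsto_nhdsWithin_of_tendsto_nhds_of_eventually_within
    · have : Tendsto (fun α : ℝ => x + α) (𝓝 0) (𝓝 (x + 0)) :=
        (continuous_const.add continuous_id).tendsto 0
      rw [add_zero] at this
      exact this.mono_left nhdsWithin_le_nhds
    · filter_upwards [self_mem_nhdsWithin] with α hα
      rw [mem_Ioi] at hα
      simp only [mem_compl_iff, mem_singleton_iff]
      intro h
      linarith
  refine (h1.comp h2).congr' ?_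
  filter_upwards [self_mem_nhdsWithin] with α hα
  rw [mem_Ioi] at hα
  simp only [Function.comp_apply, slope_def_field]
  rw [G_eq hf, add_sub_cancel_left, intervalIntegral.integral_interval_sub_left
    hf.int.intervalIntegrable hf.int.intervalIntegrable]

end

end Pool.Agent.K4H58.DR
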