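import Pool.Agent.K4H58.DR.Har
import Pool.Agent.K4H58.KL.Rie
import Pool.Agent.H345R2.A2.Four

/-! # Kernels of stationary determinantal processes -/

set_option autoImplicit false

namespace Pool.Agent.K4H58.DR

open Filter Topology MeasureTheory Set Complex
open H370.A2 (RR)
open Pool.Agent.K4H58.KL (SM SD rho)
open scoped FourierTransform

noncomputable section

/-- the kernel with spectral function `f` -/
def kf (f : ℝ → ℝ) (u : ℝ) : ℂ := ∫ x, (f x : ℂ) * cexp (((2 * Real.pi * x * u : ℝ) : ℂ) * I)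

/-- the Fejer kernel -/
def hh (x : ℝ) : ℝ := RR tent 1 x

lemma hh_eq {x : ℝ} (hx : x ≠ 0) : hh x = (Real.sin (Real.pi * x) / (Real.pi * x)) ^ 2 := by
  rw [← H370.A2.fejer hx]
  unfold hh RR
  refine intervalIntegral.integral_congr fun α hα => ?_
  rw [Set.uIcc_of_le (by norm_num)] at hα
  show tent α * Real.cos (2 * Real.pi * α * x) = (1 - |α|) * Real.cos (2 * Real.pi * x * α)
  have h1 : tent α = 1 - |α| := by
    unfold tent
    apply max_eq_right
    have := abs_le.2 hα
    linarith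
  rw [h1, show 2 * Real.pi * α * x = 2 * Real.pi * x * α by ring]

lemma tent_sup (x : ℝ) (h : 1 ≤ |x|) : tent x = 0 := tent_zero h

lemma hh_zero : hh 0 = 1 := by
  unfold hh RR
  simp only [mul_zero, Real.cos_zero, mul_one]
  have h1 := tent_int (lam := 1) one_pos
  simp only [div_one] at h1
  rw [int_supp (a := 1) tent_sup] at h1
  exact h1

lemma hh_nonneg (x : ℝ) : 0 ≤ hh x := by
  rcases eq_or_ne x 0 with h | h
  · rw [h, hh_zero]; exact zero_le_one
  · rw [hh_eq h]; positivity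

lemma hh_le (x : ℝ) : hh x ≤ 1 := by
  rcases eq_or_ne x 0 with h | h
  · rw [h, hh_zero]
  · rw [hh_eq h]
    have h1 : |Real.sin (Real.pi * x) / (Real.pi * x)| ≤ 1 := by
      rw [abs_div, div_le_one (abs_pos.2 (mul_ne_zero Real.pi_pos.ne' h))]
      exact Real.abs_sin_le_abs
    rw [← sq_abs]
    have h2 := abs_nonneg (Real.sin (Real.pi * x) / (Real.pi * x))
    nlinarith

lemma hh_dec (x : ℝ) : hh x * x ^ 2 ≤ 1 := by
  rcases eq_or_ne x 0 with h | h
  · rw [h]; norm_num
  · rw [hh_eq h, div_pow, mul_pow]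
    have hx : 0 < x ^ 2 := by positivity
    have hpi := Real.pi_gt_three
    rw [div_mul_eq_mul_div, div_le_one (by positivity)]
    have h1 := Real.sin_sq_le_one (Real.pi * x)
    have h2 : (1 : ℝ) ≤ Real.pi ^ 2 := by nlinarith
    exact mul_le_mul_of_nonneg_right (h1.trans h2) hx.le

lemma hh_cont : Continuous hh := H370.A2.RR_cont tent_cont

lemma hh_abs_dec (x : ℝ) : |RR tent 1 x| * x ^ 2 ≤ 1 := by
  have := hh_dec x
  have h2 := hh_nonneg x
  unfold hh at this h2
  rwa [abs_of_nonneg h2]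

lemma hh_even (x : ℝ) : hh (-x) = hh x := H370.A2.RR_even x

lemma hh_int : Integrable hh := H370.A2.RR_integrable tent_cont tent_sup hh_abs_dec

lemma hh_inv (β : ℝ) : ∫ x, hh x * Real.cos (2 * Real.pi * x * β) = tent β := by
  have := H370.A2.RR_inv tent_cont tent_sup hh_abs_dec β
  unfold hh
  rw [this]
  unfold H370.A2.evp
  rw [tent_even]
  ring

lemma hh_sc {lam : ℝ} (hl : 0 < lam) (β : ℝ) :
    ∫ u, hh (lam * u) * Real.cos (2 * Real.pi * β * u) = tent (β / lam) / lam := by
  have h1 := Measure.integral_comp_mul_left (fun x => hh x * Real.cos (2 * Real.pi * x * (β / lam))) lam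
  rw [hh_inv, smul_eq_mul, abs_of_pos (by positivity)] at h1
  rw [div_eq_inv_mul, ← h1]
  refine integral_congr_ae (Eventually.of_forall fun u => ?_)
  show hh (lam * u) * Real.cos (2 * Real.pi * β * u) =
    hh (lam * u) * Real.cos (2 * Real.pi * (lam * u) * (β / lam))
  congr 2
  field_simp

lemma hh_sc_int {lam : ℝ} (hl : 0 < lam) : Integrable fun u => hh (lam * u) :=
  hh_int.comp_mul_left' hl.ne'

lemma hh_mass {lam : ℝ} (hl : 0 < lam) : ∫ u, hh (lam * u) = 1 / lam := by
  have h1 := hh_sc hl 0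
  simp only [mul_zero, zero_mul, Real.cos_zero, mul_one, zero_div] at h1
  rw [h1]
  congr 1
  unfold tent
  simp

lemma exp_norm (z : ℝ) : ‖cexp ((z : ℂ) * I)‖ = 1 := Complex.norm_exp_ofReal_mul_I z

lemma kf_integrable {f : ℝ → ℝ} (hf : Integrable f) (u : ℝ) :
    Integrable fun x => (f x : ℂ) * cexp (((2 * Real.pi * x * u : ℝ) : ℂ) * I) := by
  refine hf.norm.mono' ?_ (Eventually.of_forall fun x => ?_)
  · refine (Complex.continuous_ofReal.comp_aestronglyMeasurable hf.1).mul ?_
    apply Continuous.aestronglyMeasurable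
    fun_prop
  · rw [norm_mul, exp_norm, mul_one, Complex.norm_real]

lemma kf_le {f : ℝ → ℝ} (u : ℝ) : ‖kf f u‖ ≤ ∫ x, ‖f x‖ := by
  unfold kf
  refine (norm_integral_le_integral_norm _).trans (le_of_eq ?_)
  refine integral_congr_ae (Eventually.of_forall fun x => ?_)
  show ‖(f x : ℂ) * cexp (((2 * Real.pi * x * u : ℝ) : ℂ) * I)‖ = ‖f x‖
  rw [norm_mul, exp_norm, mul_one, Complex.norm_real]

lemma kf_cont {f : ℝ → ℝ} (hf : Integrable f) : Continuous (kf f) := by
  unfold kf
  refine continuous_of_dominated (bound := fun x => ‖f x‖) ?_ ?_ hf.norm ?_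
  · exact fun u => (kf_integrable hf u).1
  · intro u
    refine Eventually.of_forall fun x => ?_
    rw [norm_mul, exp_norm, mul_one, Complex.norm_real]
  · refine Eventually.of_forall fun x => ?_
    fun_prop

lemma kf_zero (f : ℝ → ℝ) : kf f 0 = ((∫ x, f x : ℝ) : ℂ) := by
  unfold kf
  simp only [mul_zero, Complex.ofReal_zero, zero_mul, Complex.exp_zero, mul_one]
  exact integral_ofReal

lemma kf_congr {f g : ℝ → ℝ} (h : f =ᵐ[volume] g) : kf f = kf g := by
  funext u
  unfold kf
  refine integral_congr_ae ?_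
  filter_upwards [h] with x hx
  rw [hx]

lemma kf_sq {f : ℝ → ℝ} (hf : Sp f) (u : ℝ) : ‖kf f u‖ ^ 2 =
    ∫ z : ℝ × ℝ, f z.1 * f z.2 * Real.cos (2 * Real.pi * (z.1 - z.2) * u) ∂(volume.prod volume) := by
  have hre : (kf f u).re = ∫ x, f x * Real.cos (2 * Real.pi * x * u) := by
    unfold kf
    have h1 := (Complex.reCLM.integral_comp_comm (kf_integrable hf.int u)).symm
    simp only [Complex.reCLM_apply] at h1
    rw [h1]
    refine integral_congr_ae (Eventually.of_forall fun x => ?_)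
    show ((f x : ℂ) * cexp (((2 * Real.pi * x * u : ℝ) : ℂ) * I)).re = _
    rw [Complex.re_ofReal_mul, Complex.exp_ofReal_mul_I_re]
  have him : (kf f u).im = ∫ x, f x * Real.sin (2 * Real.pi * x * u) := by
    unfold kf
    have h1 := (Complex.imCLM.integral_comp_comm (kf_integrable hf.int u)).symm
    simp only [Complex.imCLM_apply] at h1
    rw [h1]
    refine integral_congr_ae (Eventually.of_forall fun x => ?_)
    show ((f x : ℂ) * cexp (((2 * Real.pi * x * u : ℝ) : ℂ) * I)).im = _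
    rw [Complex.im_ofReal_mul, Complex.exp_ofReal_mul_I_im]
  have hc : Integrable fun x => f x * Real.cos (2 * Real.pi * x * u) := by
    refine hf.int.norm.mono' ?_ (Eventually.of_forall fun x => ?_)
    · exact (hf.meas.mul (by fun_prop)).aestronglyMeasurable
    · rw [norm_mul, Real.norm_eq_abs (Real.cos _)]
      exact mul_le_of_le_one_right (norm_nonneg _) (Real.abs_cos_le_one _)
  have hs : Integrable fun x => f x * Real.sin (2 * Real.pi * x * u) := by
    refine hf.int.norm.mono' ?_ (Eventually.of_forall fun x => ?_)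
    · exact (hf.meas.mul (by fun_prop)).aestronglyMeasurable
    · rw [norm_mul, Real.norm_eq_abs (Real.sin _)]
      exact mul_le_of_le_one_right (norm_nonneg _) (Real.abs_sin_le_one _)
  rw [Complex.sq_norm, Complex.normSq_apply, hre, him, ← integral_prod_mul, ← integral_prod_mul,
    ← integral_add (hc.mul_prod hc) (hs.mul_prod hs)]
  refine integral_congr_ae (Eventually.of_forall fun z => ?_)
  show f z.1 * Real.cos (2 * Real.pi * z.1 * u) * (f z.2 * Real.cos (2 * Real.pi * z.2 * u)) +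
    f z.1 * Real.sin (2 * Real.pi * z.1 * u) * (f z.2 * Real.sin (2 * Real.pi * z.2 * u)) =
    f z.1 * f z.2 * Real.cos (2 * Real.pi * (z.1 - z.2) * u)
  rw [show 2 * Real.pi * (z.1 - z.2) * u = 2 * Real.pi * z.1 * u - 2 * Real.pi * z.2 * u by ring,
    Real.cos_sub]
  ring

/-- the structure function tested with the tent -/
theorem kf_hh {f : ℝ → ℝ} (hf : Sp f) {lam : ℝ} (hl : 0 < lam) :
    ∫ u, hh (lam * u) * ‖kf f u‖ ^ 2 = AA f lam / lam := by
  have hff : Integrable (fun z : ℝ × ℝ => f z.1 * f z.2) (volume.prod volume) := hf.int.mul_prod hf.int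
  have h1 : ∫ u, hh (lam * u) * ‖kf f u‖ ^ 2 = ∫ u, ∫ z : ℝ × ℝ, hh (lam * u) *
      (f z.1 * f z.2 * Real.cos (2 * Real.pi * (z.1 - z.2) * u)) ∂(volume.prod volume) := by
    refine integral_congr_ae (Eventually.of_forall fun u => ?_)
    show hh (lam * u) * ‖kf f u‖ ^ 2 = ∫ z : ℝ × ℝ, hh (lam * u) *
      (f z.1 * f z.2 * Real.cos (2 * Real.pi * (z.1 - z.2) * u)) ∂(volume.prod volume)
    rw [kf_sq hf, integral_const_mul]
  have hint : Integrable (Function.uncurry fun (u : ℝ) (z : ℝ × ℝ) => hh (lam * u) *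
      (f z.1 * f z.2 * Real.cos (2 * Real.pi * (z.1 - z.2) * u)))
      (volume.prod (volume.prod volume)) := by
    refine ((hh_sc_int hl).norm.mul_prod hff.norm).mono' ?_ (Eventually.of_forall fun z => ?_)
    · refine Measurable.aestronglyMeasurable ?_
      unfold Function.uncurry
      refine (hh_cont.measurable.comp (by fun_prop)).mul (((hf.meas.comp (by fun_prop)).mul
        (hf.meas.comp (by fun_prop))).mul ?_)
      fun_prop
    · simp only [Function.uncurry]
      rw [norm_mul, norm_mul _ (Real.cos _), Real.norm_eq_abs (Real.cos _)]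
      gcongr
      exact mul_le_of_le_one_right (norm_nonneg _) (Real.abs_cos_le_one _)
  rw [h1, integral_integral_swap hint]
  have h2 : ∀ z : ℝ × ℝ, ∫ u, hh (lam * u) * (f z.1 * f z.2 * Real.cos (2 * Real.pi * (z.1 - z.2) * u)) =
      f z.1 * f z.2 * tent ((z.1 - z.2) / lam) / lam := by
    intro z
    have h3 := hh_sc hl (z.1 - z.2)
    rw [mul_div_assoc, ← h3, ← integral_const_mul]
    refine integral_congr_ae (Eventually.of_forall fun u => ?_)
    show hh (lam * u) * (f z.1 * f z.2 * Real.cos (2 * Real.pi * (z.1 - z.2) * u)) =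
      f z.1 * f z.2 * (hh (lam * u) * Real.cos (2 * Real.pi * (z.1 - z.2) * u))
    ring
  simp_rw [h2]
  rw [integral_div, integral_prod]
  · rfl
  · refine hff.norm.mono' ?_ (Eventually.of_forall fun z => ?_)
    · refine Measurable.aestronglyMeasurable ?_
      refine ((hf.meas.comp measurable_fst).mul (hf.meas.comp measurable_snd)).mul ?_
      exact tent_cont.measurable.comp (by fun_prop)
    · rw [norm_mul, Real.norm_of_nonneg (tent_nonneg _)]
      exact mul_le_of_le_one_right (norm_nonneg _) (tent_le _)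

/-- Riemann-Lebesgue -/
lemma kf_far (f : ℝ → ℝ) : Tendsto (kf f) (cocompact ℝ) (𝓝 0) := by
  have h1 := Real.tendsto_integral_exp_smul_cocompact (fun x : ℝ => (f x : ℂ))
  have h2 : Tendsto (fun u : ℝ => -u) (cocompact ℝ) (cocompact ℝ) :=
    (Homeomorph.neg ℝ).isClosedEmbedding.tendsto_cocompact
  refine (h1.comp h2).congr fun u => ?_
  simp only [Function.comp_apply]
  unfold kf
  refine integral_congr_ae (Eventually.of_forall fun x => ?_)
  show 𝐞 (-(x * -u)) • (f x : ℂ) = (f x : ℂ) * cexp (((2 * Real.pi * x * u : ℝ) : ℂ) * I)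
  rw [Circle.smul_def, Real.fourierChar_apply, smul_eq_mul, mul_comm]
  congr 3
  push_cast
  ring

/-- the kernel matrix -/
def KM (f : ℝ → ℝ) {k : ℕ} (p : Fin k → ℝ) : Matrix (Fin k) (Fin k) ℂ :=
  Matrix.of fun i j => kf f (p i - p j)

/-- the correlation function -/
def KD (f : ℝ → ℝ) {k : ℕ} (p : Fin k → ℝ) : ℂ := (KM f p).det

/-- the density as a function of the differences -/
def rf (f : ℝ → ℝ) {m : ℕ} (u : Fin m → ℝ) : ℝ := (KD f (Fin.snoc u 0 : Fin (m + 1) → ℝ)).re

lemma KD_cont {f : ℝ → ℝ} (hf : Integrable f) (k : ℕ) : Continuous (KD f (k := k)) := by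
  unfold KD
  apply Continuous.matrix_det
  unfold KM
  refine continuous_matrix fun i j => ?_
  exact (kf_cont hf).comp (by fun_prop)

lemma rf_cont {f : ℝ → ℝ} (hf : Integrable f) (m : ℕ) : Continuous (rf f (m := m)) :=
  Complex.continuous_re.comp ((KD_cont hf (m + 1)).comp (Pool.Agent.K4H58.KL.snoc_cont m))

lemma KD_far {f : ℝ → ℝ} {k : ℕ} (p : Fin k → ℝ) :
    Tendsto (fun v => KD f (Fin.cons v p : Fin (k + 1) → ℝ)) (cocompact ℝ)
      (𝓝 (((∫ x, f x : ℝ) : ℂ) * KD f p)) := by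
  obtain ⟨M, hM⟩ : ∃ M : Matrix (Fin (k + 1)) (Fin (k + 1)) ℂ, M = Matrix.of fun i j =>
    Fin.cases (Fin.cases ((∫ x, f x : ℝ) : ℂ) (fun _ => 0) j)
      (fun i' => Fin.cases 0 (fun j' => kf f (p i' - p j')) j) i := ⟨_, rfl⟩
  have hdet : M.det = ((∫ x, f x : ℝ) : ℂ) * KD f p := by
    rw [Matrix.det_succ_row_zero, Fin.sum_univ_succ, Finset.sum_eq_zero]
    · have h1 : M 0 0 = ((∫ x, f x : ℝ) : ℂ) := by rw [hM]; rfl
      have h2 : M.submatrix Fin.succ (Fin.succAbove 0) = KM f p := by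
        ext i j
        rw [hM]
        simp [KM]
      rw [h1, h2]
      simp [KD]
    · intro j _
      have h1 : M 0 j.succ = 0 := by rw [hM]; rfl
      rw [h1]
      simp
  rw [← hdet]
  have h1 : Tendsto (fun v => KM f (Fin.cons v p : Fin (k + 1) → ℝ)) (cocompact ℝ) (𝓝 M) := by
    refine tendsto_pi_nhds.2 fun i => tendsto_pi_nhds.2 fun j => ?_
    have hc1 : ∀ c : ℝ, Tendsto (fun v : ℝ => v - c) (cocompact ℝ) (cocompact ℝ) := fun c =>
      (Homeomorph.subRight c).isClosedEmbedding.tendsto_cocompact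
    have hc2 : ∀ c : ℝ, Tendsto (fun v : ℝ => c - v) (cocompact ℝ) (cocompact ℝ) := fun c =>
      (Homeomorph.subLeft c).isClosedEmbedding.tendsto_cocompact
    refine Fin.cases (Fin.cases ?_ (fun j' => ?_) j) (fun i' => Fin.cases ?_ (fun j' => ?_) j) i
    · rw [hM]
      simp only [KM, Matrix.of_apply, Fin.cons_zero, Fin.cases_zero, sub_self]
      rw [kf_zero]
      exact tendsto_const_nhds
    · rw [hM]
      simp only [KM, Matrix.of_apply, Fin.cons_zero, Fin.cons_succ, Fin.cases_zero, Fin.cases_succ]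
      exact (kf_far f).comp (hc1 _)
    · rw [hM]
      simp only [KM, Matrix.of_apply, Fin.cons_zero, Fin.cons_succ, Fin.cases_zero, Fin.cases_succ]
      exact (kf_far f).comp (hc2 _)
    · rw [hM]
      simp only [KM, Matrix.of_apply, Fin.cons_succ, Fin.cases_succ]
      exact tendsto_const_nhds
  unfold KD
  exact ((continuous_id.matrix_det).tendsto M).comp h1

lemma rf_far {f : ℝ → ℝ} {m : ℕ} (u : Fin m → ℝ) :
    Tendsto (fun v => rf f (Fin.cons v u : Fin (m + 1) → ℝ)) (cocompact ℝ)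
      (𝓝 ((∫ x, f x) * rf f u)) := by
  have h1 := (Complex.continuous_re.tendsto _).comp (KD_far (f := f) (Fin.snoc u 0 : Fin (m + 1) → ℝ))
  rw [Complex.re_ofReal_mul] at h1
  refine h1.congr fun v => ?_
  simp only [Function.comp_apply]
  unfold rf
  rw [Fin.cons_snoc_eq_snoc_cons]

/-- the kernel of the indicator of a unit interval -/
lemma kf_unit {f : ℝ → ℝ} {c : ℝ} (h : f =ᵐ[volume] (Ioo c (c + 1)).indicator 1) (u : ℝ) :
    kf f u = cexp (((2 * Real.pi * (c + 1 / 2) * u : ℝ) : ℂ) * I) * (Real.sinc (Real.pi * u) : ℂ) := by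
  rw [kf_congr h]
  unfold kf
  have h1 : ∀ x, ((((Ioo c (c + 1)).indicator (1 : ℝ → ℝ) x : ℝ) : ℂ) *
      cexp (((2 * Real.pi * x * u : ℝ) : ℂ) * I)) =
      (Ioo c (c + 1)).indicator (fun x => cexp (((2 * Real.pi * x * u : ℝ) : ℂ) * I)) x := by
    intro x
    by_cases hx : x ∈ Ioo c (c + 1)
    · rw [indicator_of_mem hx, indicator_of_mem hx]
      simp
    · rw [indicator_of_notMem hx, indicator_of_notMem hx]
      simp
  simp_rw [h1]
  rw [integral_indicator measurableSet_Ioo, ← integral_Ioc_eq_integral_Ioo,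
    ← intervalIntegral.integral_of_le (by linarith)]
  rcases eq_or_ne u 0 with hu | hu
  · rw [hu]
    simp
  · have hpi := Real.pi_pos
    have hd : ∀ x ∈ uIcc c (c + 1), HasDerivAt
        (fun x : ℝ => cexp (((2 * Real.pi * x * u : ℝ) : ℂ) * I) / (((2 * Real.pi * u : ℝ) : ℂ) * I))
        (cexp (((2 * Real.pi * x * u : ℝ) : ℂ) * I)) x := by
      intro x _
      have h2 : HasDerivAt (fun x : ℝ => ((2 * Real.pi * x * u : ℝ) : ℂ) * I)
          (((2 * Real.pi * u : ℝ) : ℂ) * I) x := by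
        have h3 : HasDerivAt (fun x : ℝ => 2 * Real.pi * x * u) (2 * Real.pi * u) x := by
          have := ((hasDerivAt_id x).const_mul (2 * Real.pi)).mul_const u
          simpa using this
        exact h3.ofReal_comp.mul_const I
      have h4 := h2.cexp.div_const (((2 * Real.pi * u : ℝ) : ℂ) * I)
      refine h4.congr_deriv ?_
      rw [mul_div_assoc, div_self, mul_one]
      apply mul_ne_zero _ Complex.I_ne_zero
      rw [Complex.ofReal_ne_zero]
      exact mul_ne_zero (by positivity) hu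
    rw [intervalIntegral.integral_eq_sub_of_hasDerivAt hd
      (Continuous.intervalIntegrable (by fun_prop) _ _)]
    have e1 : (((2 * Real.pi * (c + 1) * u : ℝ) : ℂ) * I) =
        ((2 * Real.pi * (c + 1 / 2) * u : ℝ) : ℂ) * I + ((Real.pi * u : ℝ) : ℂ) * I := by
      push_cast; ring
    have e2 : (((2 * Real.pi * c * u : ℝ) : ℂ) * I) =
        ((2 * Real.pi * (c + 1 / 2) * u : ℝ) : ℂ) * I + (-((Real.pi * u : ℝ) : ℂ)) * I := by
      push_cast; ring
    rw [e1, e2, Complex.exp_add, Complex.exp_add, Real.sinc_of_ne_zero (mul_ne_zero hpi.ne' hu)]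
    rw [Complex.ofReal_div, Complex.ofReal_sin, Complex.sin]
    have hu' : ((Real.pi * u : ℝ) : ℂ) ≠ 0 := by
      rw [Complex.ofReal_ne_zero]
      exact mul_ne_zero hpi.ne' hu
    have e3 : ((2 * Real.pi * u : ℝ) : ℂ) = 2 * ((Real.pi * u : ℝ) : ℂ) := by push_cast; ring
    rw [e3]
    field_simp
    rw [Complex.I_sq]
    ring

lemma KD_unit {f : ℝ → ℝ} {c : ℝ} (h : f =ᵐ[volume] (Ioo c (c + 1)).indicator 1) {k : ℕ}
    (p : Fin k → ℝ) : KD f p = (SD p : ℂ) := by
  obtain ⟨e, he⟩ : ∃ e : Fin k → ℂ, e = fun i =>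
    cexp (((2 * Real.pi * (c + 1 / 2) * p i : ℝ) : ℂ) * I) := ⟨_, rfl⟩
  have he0 : ∀ i, e i ≠ 0 := fun i => by rw [he]; exact Complex.exp_ne_zero _
  have h1 : KM f p = Matrix.diagonal e * (SM p).map (fun x : ℝ => (x : ℂ)) *
      Matrix.diagonal (fun i => (e i)⁻¹) := by
    ext i j
    rw [Matrix.mul_diagonal, Matrix.diagonal_mul, Matrix.map_apply]
    simp only [KM, SM, Matrix.of_apply]
    rw [kf_unit h, he]
    simp only
    rw [← Complex.exp_neg]
    have e1 : (((2 * Real.pi * (c + 1 / 2) * (p i - p j) : ℝ) : ℂ) * I) =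
        ((2 * Real.pi * (c + 1 / 2) * p i : ℝ) : ℂ) * I +
          -(((2 * Real.pi * (c + 1 / 2) * p j : ℝ) : ℂ) * I) := by
      push_cast; ring
    rw [e1, Complex.exp_add]
    ring
  unfold KD SD
  rw [h1, Matrix.det_mul, Matrix.det_mul, Matrix.det_diagonal, Matrix.det_diagonal]
  have h2 : ((SM p).map (fun x : ℝ => (x : ℂ))).det = ((SM p).det : ℂ) :=
    (RingHom.map_det Complex.ofRealHom (SM p)).symm
  rw [h2]
  have h3 : (∏ i, e i) * (∏ i, (e i)⁻¹) = 1 := by
    rw [← Finset.prod_mul_distrib]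
    exact Finset.prod_eq_one fun i _ => mul_inv_cancel₀ (he0 i)
  calc (∏ i, e i) * ((SM p).det : ℂ) * ∏ i, (e i)⁻¹ =
      ((∏ i, e i) * (∏ i, (e i)⁻¹)) * ((SM p).det : ℂ) := by ring
    _ = _ := by rw [h3, one_mul]

lemma rf_unit {f : ℝ → ℝ} {c : ℝ} (h : f =ᵐ[volume] (Ioo c (c + 1)).indicator 1) {m : ℕ}
    (u : Fin m → ℝ) : rf f u = rho u := by
  unfold rf rho
  rw [KD_unit h, Complex.ofReal_re]

end

end Pool.Agent.K4H58.DR
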