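import Pool.Agent.K4H58.DR.Har

/-! # Spectral functions of determinantal processes: rigidity -/

set_option autoImplicit false

namespace Pool.Agent.K4H58.DR

open Filter Topology MeasureTheory Set

noncomputable section

variable {ι : Type} [Fintype ι]

lemma sq_sum_one {f : ι → ℝ → ℝ} (hf : ∀ i, Sp (f i)) (h1 : ∑ i, ∫ x, f i x = 1)
    {δ : ℝ} (hδ : 0 < δ) (hA : ∀ lam, 0 < lam → lam < δ → lam - lam ^ 2 / 3 ≤ ∑ i, AA (f i) lam) :
    (∑ i, ∫ x, f i x ^ 2 = 1) ∧ ∀ i, ∀ᵐ x, f i x = 0 ∨ f i x = 1 := by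
  have hle : ∀ i, ∫ x, f i x ^ 2 ≤ ∫ x, f i x := fun i => by
    refine integral_mono (hf i).sq_int (hf i).int fun x => ?_
    have h2 := (hf i).nn x
    have h3 := (hf i).le x
    show f i x ^ 2 ≤ f i x
    nlinarith
  have hup : ∑ i, ∫ x, f i x ^ 2 ≤ 1 := by
    rw [← h1]
    exact Finset.sum_le_sum fun i _ => hle i
  have hlow : ∀ lam, 0 < lam → lam < δ → 1 - lam / 3 ≤ ∑ i, ∫ x, f i x ^ 2 := by
    intro lam hl0 hl1
    have h2 := hA lam hl0 hl1
    have h3 : ∑ i, AA (f i) lam ≤ lam * ∑ i, ∫ x, f i x ^ 2 := by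
      rw [Finset.mul_sum]
      exact Finset.sum_le_sum fun i _ => AA_le (hf i) hl0
    have h4 : lam * (1 - lam / 3) ≤ lam * ∑ i, ∫ x, f i x ^ 2 := by
      calc lam * (1 - lam / 3) = lam - lam ^ 2 / 3 := by ring
        _ ≤ _ := h2.trans h3
    exact le_of_mul_le_mul_left h4 hl0
  have hlow1 : 1 ≤ ∑ i, ∫ x, f i x ^ 2 := by
    by_contra hcon
    push Not at hcon
    obtain ⟨S, hS⟩ : ∃ S, S = ∑ i, ∫ x, f i x ^ 2 := ⟨_, rfl⟩
    rw [← hS] at hcon hlow
    have h5 := hlow (min (δ / 2) ((1 - S) / 2)) (lt_min (by linarith) (by linarith))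
      ((min_le_left _ _).trans_lt (by linarith))
    have h6 := min_le_right (δ / 2) ((1 - S) / 2)
    linarith
  have heq : ∑ i, ∫ x, f i x ^ 2 = 1 := le_antisymm hup hlow1
  refine ⟨heq, fun i => ?_⟩
  have h2 : ∀ i ∈ Finset.univ, ∫ x, f i x ^ 2 = ∫ x, f i x := by
    have := (Finset.sum_eq_sum_iff_of_le (fun i (_ : i ∈ (Finset.univ : Finset ι)) => hle i)).1
      (heq.trans h1.symm)
    exact this
  have h3 : ∫ x, (f i x - f i x ^ 2) = 0 := by
    rw [integral_sub (hf i).int (hf i).sq_int, h2 i (Finset.mem_univ i), sub_self]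
  have h4 := (integral_eq_zero_iff_of_nonneg (fun x => by
    have h5 := (hf i).nn x
    have h6 := (hf i).le x
    show 0 ≤ f i x - f i x ^ 2
    nlinarith) ((hf i).int.sub (hf i).sq_int)).1 h3
  filter_upwards [h4] with x hx
  have h5 : f i x * (1 - f i x) = 0 := by
    have : f i x - f i x ^ 2 = 0 := hx
    linarith
  rcases mul_eq_zero.1 h5 with h6 | h6
  · exact Or.inl h6
  · exact Or.inr (by linarith)

lemma small {f : ι → ℝ → ℝ} (hf : ∀ i, Sp (f i)) (h2 : ∑ i, ∫ x, f i x ^ 2 = 1)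
    {δ : ℝ} (hδ : 0 < δ) (hA : ∀ lam, 0 < lam → lam < δ → lam - lam ^ 2 / 3 ≤ ∑ i, AA (f i) lam)
    {ε : ℝ} (hε : 0 < ε) : ∃ᶠ α : ℝ in 𝓝[>] 0, ∑ i, PV (f i) α ≤ (2 + ε) * α := by
  rw [Filter.Frequently]
  intro hcon
  rw [eventually_nhdsWithin_iff, Metric.eventually_nhds_iff] at hcon
  obtain ⟨η, hη, h⟩ := hcon
  obtain ⟨lam, hlam⟩ : ∃ lam, lam = min (η / 2) (δ / 2) := ⟨_, rfl⟩
  have hl0 : 0 < lam := by rw [hlam]; exact lt_min (by linarith) (by linarith)
  have hl1 : lam < η := by rw [hlam]; exact (min_le_left _ _).trans_lt (by linarith)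
  have hl2 : lam < δ := by rw [hlam]; exact (min_le_right _ _).trans_lt (by linarith)
  have hpos : ∀ α : ℝ, 0 < α → α < lam → (2 + ε) * α ≤ ∑ i, PV (f i) α := by
    intro α h0 h1
    have := h (y := α) (by rw [Real.dist_eq, sub_zero, abs_of_pos h0]; linarith) h0
    push Not at this
    exact this.le
  have hpt : ∀ α : ℝ, tent (α / lam) * ((2 + ε) * |α|) ≤ ∑ i, tent (α / lam) * PV (f i) α := by
    intro α
    rw [← Finset.mul_sum]
    rcases le_or_gt lam |α| with h1 | h1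
    · rw [tent_sc_zero hl0 h1, zero_mul, zero_mul]
    · refine mul_le_mul_of_nonneg_left ?_ (tent_nonneg _)
      rcases lt_trichotomy α 0 with h3 | h3 | h3
      · rw [abs_of_neg h3] at h1 ⊢
        have h4 := hpos (-α) (by linarith) h1
        simp_rw [fun i => PV_even (hf i) α] at h4
        exact h4
      · rw [h3, abs_zero, mul_zero]
        exact Finset.sum_nonneg fun i _ => PV_nonneg _ _
      · rw [abs_of_pos h3] at h1 ⊢
        exact hpos α h3 h1
  have hi1 : Integrable fun α => tent (α / lam) * ((2 + ε) * |α|) := by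
    apply Continuous.integrable_of_hasCompactSupport
    · exact (tent_cont.comp (by fun_prop)).mul (by fun_prop)
    · apply HasCompactSupport.intro (isCompact_Icc (a := -lam) (b := lam))
      intro x hx
      rw [tent_sc_zero hl0, zero_mul]
      by_contra h5
      push Not at h5
      obtain ⟨h3, h4⟩ := abs_lt.1 h5
      exact hx ⟨h3.le, h4.le⟩
  have hint : ∫ α, tent (α / lam) * ((2 + ε) * |α|) ≤ ∫ α, ∑ i, tent (α / lam) * PV (f i) α :=
    integral_mono hi1 (integrable_finsetSum _ fun i _ => PV_tent_int (hf i) hl0) hpt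
  rw [integral_finsetSum _ fun i _ => PV_tent_int (hf i) hl0] at hint
  simp_rw [fun i => PV_tent (hf i) hl0] at hint
  rw [Finset.sum_sub_distrib, ← Finset.mul_sum, ← Finset.mul_sum, h2] at hint
  have h3 := hA lam hl0 hl2
  have h4 : ∫ α, tent (α / lam) * ((2 + ε) * |α|) = (2 + ε) * (lam ^ 2 / 3) := by
    rw [← tent_abs hl0, ← integral_const_mul]
    refine integral_congr_ae (Eventually.of_forall fun α => ?_)
    show tent (α / lam) * ((2 + ε) * |α|) = (2 + ε) * (tent (α / lam) * |α|)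
    ring
  rw [h4] at hint
  have h5 : 0 < ε * (lam ^ 2 / 3) := by positivity
  nlinarith

/-- Lebesgue points with value `v` -/
def Lp (f : ℝ → ℝ) (v x : ℝ) : Prop := Tendsto (fun α : ℝ => G f α x / α) (𝓝[>] 0) (𝓝 v)

lemma Lp_gt {f : ℝ → ℝ} {v x c : ℝ} (h : Lp f v x) (hc : c < v) : ∀ᶠ α : ℝ in 𝓝[>] 0, c * α ≤ G f α x := by
  filter_upwards [h.eventually (lt_mem_nhds hc), self_mem_nhdsWithin] with α h1 h2
  rw [mem_Ioi] at h2
  rw [lt_div_iff₀ h2] at h1
  exact h1.le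

lemma Lp_lt {f : ℝ → ℝ} {v x c : ℝ} (h : Lp f v x) (hc : v < c) : ∀ᶠ α : ℝ in 𝓝[>] 0, G f α x ≤ c * α := by
  filter_upwards [h.eventually (gt_mem_nhds hc), self_mem_nhdsWithin] with α h1 h2
  rw [mem_Ioi] at h2
  rw [div_lt_iff₀ h2] at h1
  exact h1.le

lemma no_two {f : ι → ℝ → ℝ} (hf : ∀ i, Sp (f i)) (h01 : ∀ i, ∀ᵐ x, f i x = 0 ∨ f i x = 1)
    (hs : ∀ ε : ℝ, 0 < ε → ∃ᶠ α : ℝ in 𝓝[>] 0, ∑ i, PV (f i) α ≤ (2 + ε) * α)
    {i j : ι} (hij : i ≠ j) {a b : ℝ} (ha : Lp (f i) 1 a) (hb : Lp (f j) 1 b) : False := by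
  classical
  obtain ⟨α, h4, ⟨h1, h2⟩, h0⟩ := ((hs (1 / 2) (by norm_num)).and_eventually
    (((Lp_gt ha (c := 9 / 10) (by norm_num)).and (Lp_gt hb (c := 9 / 10) (by norm_num))).and
      self_mem_nhdsWithin)).exists
  have h0' : 0 < α := h0
  have h5 := tv1 (hf i) (h01 i) α a
  have h6 := tv1 (hf j) (h01 j) α b
  have h7 : PV (f i) α + PV (f j) α ≤ ∑ i, PV (f i) α := by
    rw [← Finset.sum_pair (f := fun k => PV (f k) α) hij]
    exact Finset.sum_le_sum_of_subset_of_nonneg (Finset.subset_univ _) fun k _ _ => PV_nonneg _ _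
  linarith

lemma no_gap {f : ι → ℝ → ℝ} (hf : ∀ i, Sp (f i)) (h01 : ∀ i, ∀ᵐ x, f i x = 0 ∨ f i x = 1)
    (hs : ∀ ε : ℝ, 0 < ε → ∃ᶠ α : ℝ in 𝓝[>] 0, ∑ i, PV (f i) α ≤ (2 + ε) * α)
    {i : ι} {a b c : ℝ} (hab : a ≤ b) (hbc : b ≤ c) (ha : Lp (f i) 1 a) (hb : Lp (f i) 0 b)
    (hc : Lp (f i) 1 c) : False := by
  obtain ⟨α, h1, ⟨h2, h3⟩, h4, h5⟩ := ((hs (1 / 2) (by norm_num)).and_eventually
    (((Lp_gt ha (c := 9 / 10) (by norm_num)).and (Lp_gt hc (c := 9 / 10) (by norm_num))).and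
      ((Lp_lt hb (c := 1 / 10) (by norm_num)).and self_mem_nhdsWithin))).exists
  have h5' : 0 < α := h5
  have h6 := tv3 (hf i) (h01 i) α hab hbc
  have h7 : PV (f i) α ≤ ∑ i, PV (f i) α :=
    Finset.single_le_sum (f := fun i => PV (f i) α) (fun k _ => PV_nonneg _ _) (Finset.mem_univ i)
  linarith

theorem rigid {f : ι → ℝ → ℝ} (hf : ∀ i, Sp (f i)) (h1 : ∑ i, ∫ x, f i x = 1)
    {δ : ℝ} (hδ : 0 < δ) (hA : ∀ lam, 0 < lam → lam < δ → lam - lam ^ 2 / 3 ≤ ∑ i, AA (f i) lam) :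
    ∃ (i : ι) (c : ℝ), f i =ᵐ[volume] (Ioo c (c + 1)).indicator 1 ∧ ∀ j, j ≠ i → f j =ᵐ[volume] 0 := by
  obtain ⟨h2, h01⟩ := sq_sum_one hf h1 hδ hA
  have hs : ∀ ε : ℝ, 0 < ε → ∃ᶠ α : ℝ in 𝓝[>] 0, ∑ i, PV (f i) α ≤ (2 + ε) * α :=
    fun ε hε => small hf h2 hδ hA hε
  have hlp : ∀ i, ∀ᵐ x, (f i x = 0 ∨ f i x = 1) ∧ Lp (f i) (f i x) x := fun i => by
    filter_upwards [h01 i, leb (hf i)] with x h3 h4
    exact ⟨h3, h4⟩
  -- a nonzero function
  obtain ⟨i, -, hi⟩ : ∃ i ∈ Finset.univ, 0 < ∫ x, f i x := by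
    apply Finset.exists_lt_of_sum_lt
    rw [h1]
    simp
  have hex : ∀ j, ¬ (f j =ᵐ[volume] 0) → ∃ a, Lp (f j) 1 a := by
    intro j hj
    by_contra hcon
    push Not at hcon
    apply hj
    filter_upwards [hlp j] with x hx
    obtain ⟨h3 | h3, h4⟩ := hx
    · exact h3
    · exfalso
      rw [h3] at h4
      exact hcon x h4
  obtain ⟨a0, ha0⟩ := hex i (fun h => by
    have : ∫ x, f i x = 0 := by
      rw [integral_congr_ae h]
      simp
    linarith)
  have hothers : ∀ j, j ≠ i → f j =ᵐ[volume] 0 := by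
    intro j hj
    by_contra hcon
    obtain ⟨b, hb⟩ := hex j hcon
    exact no_two hf h01 hs hj hb ha0
  have hsum : ∫ x, f i x = 1 := by
    rw [← h1, Finset.sum_eq_single i]
    · intro j _ hj
      rw [integral_congr_ae (hothers j hj)]
      simp
    · intro h
      exact absurd (Finset.mem_univ i) h
  -- the set of density points
  obtain ⟨A, hA0⟩ : ∃ A : Set ℝ, A = {x | Lp (f i) 1 x} := ⟨_, rfl⟩
  have hconv : ∀ a ∈ A, ∀ c ∈ A, ∀ᵐ x, a ≤ x → x ≤ c → f i x = 1 := by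
    intro a ha c hc
    filter_upwards [hlp i] with x hx hax hxc
    obtain ⟨h3 | h3, h4⟩ := hx
    · exfalso
      rw [h3] at h4
      rw [hA0] at ha hc
      exact no_gap hf h01 hs hax hxc ha h4 hc
    · exact h3
  have hdist : ∀ a ∈ A, ∀ c ∈ A, c - a ≤ 1 := by
    intro a ha c hc
    rcases le_total c a with h3 | h3
    · linarith
    have h4 : (Ioc a c).indicator (1 : ℝ → ℝ) ≤ᵐ[volume] f i := by
      filter_upwards [hconv a ha c hc] with x hx
      by_cases h5 : x ∈ Ioc a c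
      · rw [indicator_of_mem h5, hx h5.1.le h5.2]
        simp
      · rw [indicator_of_notMem h5]
        exact (hf i).nn x
    have h5 := integral_mono_ae (μ := volume) (by
      exact (integrable_indicator_iff measurableSet_Ioc).2 (integrableOn_const (by simp))) (hf i).int h4
    rw [integral_indicator_one measurableSet_Ioc, hsum, Real.volume_real_Ioc_of_le h3] at h5
    exact h5
  have ha0A : a0 ∈ A := by rw [hA0]; exact ha0
  have hne : A.Nonempty := ⟨a0, ha0A⟩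
  have hbb : BddBelow A := ⟨a0 - 1, fun a ha => by linarith [hdist a ha a0 ha0A]⟩
  have hba : BddAbove A := ⟨a0 + 1, fun a ha => by linarith [hdist a0 ha0A a ha]⟩
  obtain ⟨s, hs'⟩ : ∃ s, s = sInf A := ⟨_, rfl⟩
  obtain ⟨t, ht'⟩ : ∃ t, t = sSup A := ⟨_, rfl⟩
  have hst : s ≤ t := by rw [hs', ht']; exact csInf_le_csSup hne hbb hba
  have hf1 : f i =ᵐ[volume] (Ioo s t).indicator 1 := by
    have h3 : ∀ᵐ x : ℝ, x ≠ s := by rw [ae_iff]; simp
    have h4 : ∀ᵐ x : ℝ, x ≠ t := by rw [ae_iff]; simp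
    filter_upwards [hlp i, h3, h4] with x hx hxs hxt
    by_cases h5 : x ∈ Ioo s t
    · rw [indicator_of_mem h5]
      obtain ⟨a, haA, hax⟩ := exists_lt_of_csInf_lt hne (by rw [← hs']; exact h5.1)
      obtain ⟨c, hcA, hxc⟩ := exists_lt_of_lt_csSup hne (by rw [← ht']; exact h5.2)
      obtain ⟨h6 | h6, h7⟩ := hx
      · exfalso
        rw [h6] at h7
        rw [hA0] at haA hcA
        exact no_gap hf h01 hs hax.le hxc.le haA h7 hcA
      · rw [h6]
        rfl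
    · rw [indicator_of_notMem h5]
      obtain ⟨h6 | h6, h7⟩ := hx
      · exact h6
      · exfalso
        rw [h6] at h7
        have h8 : x ∈ A := by rw [hA0]; exact h7
        have h9 : s ≤ x := by rw [hs']; exact csInf_le hbb h8
        have h10 : x ≤ t := by rw [ht']; exact le_csSup hba h8
        exact h5 ⟨lt_of_le_of_ne h9 (Ne.symm hxs), lt_of_le_of_ne h10 hxt⟩
  have hlen : t - s = 1 := by
    rw [integral_congr_ae hf1, integral_indicator_one measurableSet_Ioo,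
      Real.volume_real_Ioo_of_le hst] at hsum
    exact hsum
  refine ⟨i, s, ?_, hothers⟩
  have : s + 1 = t := by linarith
  rw [this]
  exact hf1

end

end Pool.Agent.K4H58.DR
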