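import Pool.Agent.K4H58.DR.Box
import Pool.Agent.K4H58.DR.Rig
import Pool.Agent.K4H58.DR.Ker

/-! # Rigidity of determinantal asymptotics for the zeros -/

set_option autoImplicit false

namespace Pool.Agent.K4H58.DR

open Filter Topology MeasureTheory Set Complex
open SG (ord NZ)
open SP (RHs)
open Pool.Agent.R320.KL
open scoped ComplexConjugate

noncomputable section

lemma kf_conj (f : ℝ → ℝ) (u : ℝ) : kf f (-u) = conj (kf f u) := by
  unfold kf
  rw [← integral_conj]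
  refine integral_congr_ae (Eventually.of_forall fun x => ?_)
  show (f x : ℂ) * cexp (((2 * Real.pi * x * -u : ℝ) : ℂ) * I) =
    conj ((f x : ℂ) * cexp (((2 * Real.pi * x * u : ℝ) : ℂ) * I))
  rw [map_mul, Complex.conj_ofReal, ← Complex.exp_conj, map_mul, Complex.conj_ofReal, Complex.conj_I]
  congr 2
  push_cast
  ring

/-- the density of pairs -/
lemma rf_one (f : ℝ → ℝ) (u : Fin 1 → ℝ) : rf f u = (∫ x, f x) ^ 2 - ‖kf f (u 0)‖ ^ 2 := by
  unfold rf KD
  rw [Matrix.det_fin_two]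
  have h0 : (Fin.snoc u 0 : Fin 2 → ℝ) 0 = u 0 := rfl
  have h1 : (Fin.snoc u 0 : Fin 2 → ℝ) 1 = 0 := rfl
  simp only [KM, Matrix.of_apply, h0, h1, sub_self, sub_zero, zero_sub]
  rw [kf_zero, kf_conj, Complex.mul_conj, Complex.sub_re, ← Complex.ofReal_mul, Complex.ofReal_re,
    Complex.ofReal_re, Complex.normSq_eq_norm_sq]
  ring

lemma rf_zero (f : ℝ → ℝ) (u : Fin 0 → ℝ) : rf f u = ∫ x, f x := by
  unfold rf KD
  rw [Matrix.det_fin_one]
  simp only [KM, Matrix.of_apply, sub_self]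
  rw [kf_zero, Complex.ofReal_re]

lemma rf_bdd (f : ℝ → ℝ) (m : ℕ) : ∃ M : ℝ, ∀ u : Fin m → ℝ, |rf f u| ≤ M := by
  refine ⟨((m + 1).factorial : ℝ) * (∫ x, ‖f x‖) ^ (m + 1), fun u => ?_⟩
  unfold rf KD
  refine (Complex.abs_re_le_norm _).trans ?_
  rw [Matrix.det_apply]
  refine (norm_sum_le _ _).trans ?_
  calc ∑ σ : Equiv.Perm (Fin (m + 1)), ‖Equiv.Perm.sign σ • ∏ i, KM f (Fin.snoc u 0) (σ i) i‖ ≤
      ∑ _σ : Equiv.Perm (Fin (m + 1)), (∫ x, ‖f x‖) ^ (m + 1) := by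
        refine Finset.sum_le_sum fun σ _ => ?_
        have h1 : ‖Equiv.Perm.sign σ • ∏ i, KM f (Fin.snoc u 0 : Fin (m + 1) → ℝ) (σ i) i‖ =
            ‖∏ i, KM f (Fin.snoc u 0 : Fin (m + 1) → ℝ) (σ i) i‖ := by
          rcases Int.units_eq_one_or (Equiv.Perm.sign σ) with h | h <;> simp [h]
        rw [h1, norm_prod]
        calc ∏ i, ‖KM f (Fin.snoc u 0 : Fin (m + 1) → ℝ) (σ i) i‖ ≤ ∏ _i : Fin (m + 1), ∫ x, ‖f x‖ :=
              Finset.prod_le_prod (fun i _ => norm_nonneg _) fun i _ => kf_le _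
          _ = _ := by rw [Finset.prod_const, Finset.card_univ, Fintype.card_fin]
    _ = _ := by
        rw [Finset.sum_const, Finset.card_univ, Fintype.card_perm, Fintype.card_fin, nsmul_eq_mul]

/-- the descent to pairs -/
lemma to_one (hRH : RHs) {l : Filter ℝ} [l.NeBot] (hl : l ≤ atTop) {f : ℝ → ℝ} (hf : Integrable f)
    (m : ℕ) : ∀ c : ℝ, LG l (m + 1) (fun u => c * rf f u) →
    LG l 1 (fun u => c * (∫ x, f x) ^ m * rf f u) := by
  induction m with
  | zero =>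
    intro c h
    simpa using h
  | succ m ih =>
    intro c h
    obtain ⟨M, hM⟩ := rf_bdd f (m + 2)
    have h1 : LG l (m + 1) (fun u => (c * ∫ x, f x) * rf f u) := by
      refine dropG hRH hl (M := |c| * M) (continuous_const.mul (rf_cont hf _)) (fun w => ?_)
        (fun u => ?_) h
      · show |c * rf f w| ≤ |c| * M
        rw [abs_mul]
        exact mul_le_mul_of_nonneg_left (hM w) (abs_nonneg _)
      · rw [mul_assoc]
        exact ((rf_far u).mono_left atTop_le_cocompact).const_mul c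
    have h2 := ih _ h1
    have h3 : (fun u : Fin 1 → ℝ => c * (∫ x, f x) ^ (m + 1) * rf f u) =
        fun u => (c * ∫ x, f x) * (∫ x, f x) ^ m * rf f u := by
      funext u
      ring
    rw [h3]
    exact h2

lemma exists_sp {f : ℝ → ℝ} (h : ∀ x, 0 ≤ f x ∧ f x ≤ 1) (hf : Integrable f) :
    ∃ f' : ℝ → ℝ, Sp f' ∧ f =ᵐ[volume] f' := by
  obtain ⟨g, hg⟩ : ∃ g, g = hf.1.mk f := ⟨_, rfl⟩
  have hgm : Measurable g := by rw [hg]; exact hf.1.stronglyMeasurable_mk.measurable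
  have hfg : f =ᵐ[volume] g := by rw [hg]; exact hf.1.ae_eq_mk
  have h1 : f =ᵐ[volume] fun x => min 1 (max 0 (g x)) := by
    filter_upwards [hfg] with x hx
    rw [← hx, max_eq_right (h x).1, min_eq_right (h x).2]
  refine ⟨fun x => min 1 (max 0 (g x)), ⟨?_, ?_, ?_, ?_⟩, h1⟩
  · exact measurable_const.min (measurable_const.max hgm)
  · exact fun x => le_min zero_le_one (le_max_left _ _)
  · exact fun x => min_le_left _ _
  · exact hf.congr h1

/-- **Rigidity for superpositions.** -/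
theorem super {l : Filter ℝ} [l.NeBot] (hl : l ≤ atTop) (RH : RiemannHypothesis) (hRH : RHs)
    {ι : Type} [Fintype ι] {f : ι → ℝ → ℝ} (hf : ∀ i, Sp (f i))
    (h : LG l 1 (fun u => (∑ i, ∫ x, f i x) ^ 2 - ∑ i, ‖kf (f i) (u 0)‖ ^ 2)) :
    ∃ i c, f i =ᵐ[volume] (Ioo c (c + 1)).indicator 1 ∧ ∀ j, j ≠ i → f j =ᵐ[volume] 0 := by
  classical
  obtain ⟨ρ, hρ⟩ : ∃ ρ, ρ = ∑ i, ∫ x, f i x := ⟨_, rfl⟩
  have hρ0 : 0 ≤ ρ := by
    rw [hρ]
    exact Finset.sum_nonneg fun i _ => integral_nonneg fun x => (hf i).nn x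
  obtain ⟨g, hgd⟩ : ∃ g : ℝ → ℝ, g = fun u => ρ ^ 2 - ∑ i, ‖kf (f i) u‖ ^ 2 := ⟨_, rfl⟩
  have hLG : LG l 1 (fun u => g (u 0)) := by
    rw [hgd, hρ]
    exact h
  have hgc : Continuous g := by
    rw [hgd]
    refine continuous_const.sub (continuous_finsetSum _ fun i _ => ?_)
    exact ((kf_cont (hf i).int).norm).pow 2
  obtain ⟨M, hMd⟩ : ∃ M : ℝ, M = ρ ^ 2 + ∑ i, (∫ x, ‖f i x‖) ^ 2 := ⟨_, rfl⟩
  have hM : ∀ u, |g u| ≤ M := by
    intro u
    rw [hgd, hMd]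
    simp only
    refine (abs_sub _ _).trans ?_
    rw [abs_of_nonneg (sq_nonneg ρ), abs_of_nonneg (Finset.sum_nonneg fun i _ => sq_nonneg _)]
    refine add_le_add le_rfl (Finset.sum_le_sum fun i _ => ?_)
    exact pow_le_pow_left₀ (norm_nonneg _) (kf_le u) 2
  have h0 : LG l 0 (fun _ => ρ ^ 2) := by
    refine dropG hRH hl (g := fun u => g (u 0)) (hgc.comp (continuous_apply 0)) (fun w => hM _)
      (fun u => ?_) hLG
    have h1 : (fun v : ℝ => g ((Fin.cons v u : Fin 1 → ℝ) 0)) = g := by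
      funext v
      rfl
    rw [h1, hgd]
    have h2 : Tendsto (fun u : ℝ => ρ ^ 2 - ∑ i, ‖kf (f i) u‖ ^ 2) atTop
        (𝓝 (ρ ^ 2 - ∑ _i : ι, ‖(0 : ℂ)‖ ^ 2)) := by
      refine tendsto_const_nhds.sub (tendsto_finsetSum _ fun i _ => ?_)
      exact (((kf_far (f i)).mono_left atTop_le_cocompact).norm).pow 2
    simpa using h2
  have hρ1 : ρ = 1 := by
    have h1 := LG_zero hl h0
    nlinarith
  refine rigid hf (by rw [← hρ, hρ1]) (δ := 1) one_pos fun lam hl0 hl1 => ?_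
  have h1 := box_low hl RH hRH hgc hM hLG hl0 hl1
  have h2 : ∀ i, Integrable fun u => hh (lam * u) * ‖kf (f i) u‖ ^ 2 := by
    intro i
    refine ((hh_sc_int hl0).mul_const ((∫ x, ‖f i x‖) ^ 2)).mono' ?_ (Eventually.of_forall fun u => ?_)
    · exact ((hh_cont.comp (by fun_prop)).mul (((kf_cont (hf i).int).norm).pow 2)).aestronglyMeasurable
    · rw [norm_mul, Real.norm_of_nonneg (hh_nonneg _), Real.norm_of_nonneg (sq_nonneg _)]
      exact mul_le_mul_of_nonneg_left (pow_le_pow_left₀ (norm_nonneg _) (kf_le u) 2) (hh_nonneg _)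
  have h3 : ∫ u, hh (lam * u) * g u = 1 / lam - ∑ i, AA (f i) lam / lam := by
    have e1 : ∀ u, hh (lam * u) * g u = hh (lam * u) - ∑ i, hh (lam * u) * ‖kf (f i) u‖ ^ 2 := by
      intro u
      rw [hgd, hρ1]
      simp only
      rw [mul_sub, Finset.mul_sum]
      ring
    simp_rw [e1]
    rw [integral_sub (hh_sc_int hl0) (integrable_finsetSum _ fun i _ => h2 i), hh_mass hl0,
      integral_finsetSum _ fun i _ => h2 i]
    congr 1
    exact Finset.sum_congr rfl fun i _ => kf_hh (hf i) hl0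
  rw [h3, ← Finset.sum_div] at h1
  have h4 : 1 - lam / 3 ≤ (∑ i, AA (f i) lam) / lam := by linarith
  rw [le_div_iff₀ hl0] at h4
  nlinarith

/-- **Rigidity at a single level.** -/
theorem single {l : Filter ℝ} [l.NeBot] (hl : l ≤ atTop) (RH : RiemannHypothesis) (hRH : RHs)
    {f : ℝ → ℝ} (hf : Sp f) {m : ℕ} (h : LG l (m + 1) (rf f)) :
    ∃ c, f =ᵐ[volume] (Ioo c (c + 1)).indicator 1 := by
  obtain ⟨ρ, hρ⟩ : ∃ ρ, ρ = ∫ x, f x := ⟨_, rfl⟩
  have hρ0 : 0 ≤ ρ := by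
    rw [hρ]
    exact integral_nonneg fun x => hf.nn x
  have h1 : LG l 1 (fun u => ρ ^ m * rf f u) := by
    have h2 := to_one hRH hl hf.int m 1 (by simpa using h)
    rw [hρ]
    simpa using h2
  have h0 : LG l 0 (fun u => ρ ^ m * (ρ * rf f u)) := by
    obtain ⟨M, hM⟩ := rf_bdd f 1
    refine dropG hRH hl (M := |ρ ^ m| * M) (continuous_const.mul (rf_cont hf.int _)) (fun w => ?_)
      (fun u => ?_) h1
    · show |ρ ^ m * rf f w| ≤ |ρ ^ m| * M
      rw [abs_mul]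
      exact mul_le_mul_of_nonneg_left (hM w) (abs_nonneg _)
    · rw [hρ]
      exact ((rf_far u).mono_left atTop_le_cocompact).const_mul _
  have h2 : ρ ^ (m + 2) = 1 := by
    have h3 := LG_zero hl h0
    rw [rf_zero, ← hρ] at h3
    rw [← h3]
    ring
  have hρ1 : ρ = 1 := (pow_eq_one_iff_of_nonneg hρ0 (by omega)).1 h2
  have h3 : LG l 1 (fun u => (∑ _i : Fin 1, ∫ x, f x) ^ 2 - ∑ _i : Fin 1, ‖kf f (u 0)‖ ^ 2) := by
    have h4 : (fun u : Fin 1 → ℝ => (∑ _i : Fin 1, ∫ x, f x) ^ 2 - ∑ _i : Fin 1, ‖kf f (u 0)‖ ^ 2) =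
        fun u => ρ ^ m * rf f u := by
      funext u
      rw [hρ1, one_pow, one_mul, rf_one]
      simp
    rw [h4]
    exact h1
  obtain ⟨i, c, h5, -⟩ := super hl RH hRH (f := fun _ : Fin 1 => f) (fun _ => hf) h3
  exact ⟨c, h5⟩

end

end Pool.Agent.K4H58.DR
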